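import Mathlib

/-!
Longest chains in a relation on `ℕ × ℕ`, and their length when both coordinates are divided into
few monotone segments.
-/

set_option autoImplicit false

namespace Pool.PBL

open Classical in
/-- the length of the longest chain (for the product order) of `S` in `[0,i) × [0,l)` -/
noncomputable def F (S : ℕ → ℕ → Prop) : ℕ → ℕ → ℕ
  | 0, _ => 0
  | _ + 1, 0 => 0
  | i + 1, l + 1 => max (F S i (l + 1)) (F S (i + 1) l) + if S i l then 1 else 0
termination_by i l => (i, l)

theorem F_zero (S : ℕ → ℕ → Prop) (i : ℕ) : F S i 0 = 0 := by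
  cases i <;> simp [F]

theorem F_succ (S : ℕ → ℕ → Prop) (i l : ℕ) :
    F S i (l + 1) ≤ F S (i + 1) (l + 1) ∧ F S (i + 1) l ≤ F S (i + 1) (l + 1) := by
  rw [F]
  exact ⟨le_trans (le_max_left _ _) (Nat.le_add_right _ _),
    le_trans (le_max_right _ _) (Nat.le_add_right _ _)⟩

theorem F_succ_of (S : ℕ → ℕ → Prop) {i l : ℕ} (h : S i l) :
    F S i (l + 1) + 1 ≤ F S (i + 1) (l + 1) ∧ F S (i + 1) l + 1 ≤ F S (i + 1) (l + 1) := by
  rw [F, if_pos h]
  exact ⟨Nat.add_le_add_right (le_max_left _ _) _, Nat.add_le_add_right (le_max_right _ _) _⟩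

theorem exists_chain (S : ℕ → ℕ → Prop) : ∀ i l, ∃ T : Finset (ℕ × ℕ),
    (∀ s ∈ T, S s.1 s.2 ∧ s.1 < i ∧ s.2 < l) ∧ (∀ s ∈ T, ∀ s' ∈ T, s ≤ s' ∨ s' ≤ s) ∧
    F S i l = T.card := by
  classical
  intro i
  induction i with
  | zero => intro l; exact ⟨∅, by simp, by simp, by simp [F]⟩
  | succ i ih =>
    intro l
    induction l with
    | zero => exact ⟨∅, by simp, by simp, by simp [F]⟩
    | succ l ih' =>
      obtain ⟨T, hT, hT1, hT2⟩ : ∃ T : Finset (ℕ × ℕ),
          (∀ s ∈ T, S s.1 s.2 ∧ s.1 < i + 1 ∧ s.2 < l + 1 ∧ (s.1 < i ∨ s.2 < l)) ∧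
          (∀ s ∈ T, ∀ s' ∈ T, s ≤ s' ∨ s' ≤ s) ∧
          max (F S i (l + 1)) (F S (i + 1) l) = T.card := by
        rcases le_total (F S i (l + 1)) (F S (i + 1) l) with h | h
        · obtain ⟨T, h1, h2, h3⟩ := ih'
          refine ⟨T, fun s hs => ?_, h2, by rw [max_eq_right h, h3]⟩
          have := h1 s hs
          exact ⟨this.1, by omega, by omega, by omega⟩
        · obtain ⟨T, h1, h2, h3⟩ := ih (l + 1)
          refine ⟨T, fun s hs => ?_, h2, by rw [max_eq_left h, h3]⟩
          have := h1 s hs
          exact ⟨this.1, by omega, by omega, by omega⟩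
      by_cases h : S i l
      · have hni : (i, l) ∉ T := by
          intro hm
          have := (hT _ hm).2.2.2
          simp at this
        refine ⟨insert (i, l) T, ?_, ?_, ?_⟩
        · intro s hs
          rcases Finset.mem_insert.mp hs with rfl | hs
          · exact ⟨h, by simp, by simp⟩
          · have := hT s hs
            exact ⟨this.1, this.2.1, this.2.2.1⟩
        · intro s hs s' hs'
          rcases Finset.mem_insert.mp hs with rfl | hs
          · rcases Finset.mem_insert.mp hs' with rfl | hs'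
            · left; exact le_rfl
            · right
              have := hT s' hs'
              exact ⟨by simp; omega, by simp; omega⟩
          · rcases Finset.mem_insert.mp hs' with rfl | hs'
            · left
              have := hT s hs
              exact ⟨by simp; omega, by simp; omega⟩
            · exact hT1 s hs s' hs'
        · rw [Finset.card_insert_of_notMem hni, F, if_pos h, hT2]
      · refine ⟨T, fun s hs => ?_, hT1, ?_⟩
        · have := hT s hs
          exact ⟨this.1, this.2.1, this.2.2.1⟩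
        · rw [F, if_neg h, hT2, Nat.add_zero]

/-- No strict chain of `L` equal-coloured pairs inside one cell (segment × segment). -/
def Good {κ : Type*} (n L : ℕ) (g : ℕ → ℕ) (c c' : ℕ → κ) : Prop :=
  ∀ T : Finset (ℕ × ℕ), T.card = L → (∀ s ∈ T, s.1 < n ∧ s.2 < n ∧ c s.1 = c' s.2) →
    (∀ s ∈ T, ∀ s' ∈ T, g s.1 = g s'.1 ∧ g s.2 = g s'.2) →
    (∀ s ∈ T, ∀ s' ∈ T, s.1 < s'.1 ↔ s.2 < s'.2) → False

theorem F_le {κ : Type*} {n t L : ℕ} {g : ℕ → ℕ} (hg : Monotone g) (hgt : ∀ i, i < n → g i < t)
    {c c' : ℕ → κ}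
    (hc : ∀ i j, i < n → j < n → g i = g j → c i = c j → i = j)
    (hc' : ∀ i j, i < n → j < n → g i = g j → c' i = c' j → i = j)
    (hG : Good n L g c c') {i l : ℕ} (hi : i ≤ n) (hl : l ≤ n) :
    F (fun a b => c a = c' b) i l ≤ 2 * t * L := by
  classical
  obtain ⟨T, hT, hT1, hT2⟩ := exists_chain (fun a b => c a = c' b) i l
  by_contra hcon
  push Not at hcon
  rw [hT2] at hcon
  have hmaps : ∀ s ∈ T, g s.1 + g s.2 ∈ Finset.range (2 * t) := by
    intro s hs
    have h1 := (hT s hs).2.1
    have h2 := (hT s hs).2.2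
    have h3 := hgt s.1 (by omega)
    have h4 := hgt s.2 (by omega)
    rw [Finset.mem_range]
    omega
  have hlt : (Finset.range (2 * t)).card * L < T.card := by
    rw [Finset.card_range]; exact hcon
  obtain ⟨v, -, hv⟩ := Finset.exists_lt_card_fiber_of_mul_lt_card_of_maps_to hmaps hlt
  obtain ⟨T', hT', hT'c⟩ := Finset.exists_subset_card_eq hv.le
  have hmem : ∀ s ∈ T', s ∈ T ∧ g s.1 + g s.2 = v := by
    intro s hs
    have := hT' hs
    rw [Finset.mem_filter] at this
    exact this
  have hcell : ∀ s ∈ T', ∀ s' ∈ T', g s.1 = g s'.1 ∧ g s.2 = g s'.2 := by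
    intro s hs s' hs'
    have h1 := hmem s hs
    have h2 := hmem s' hs'
    rcases hT1 s h1.1 s' h2.1 with h | h
    · have h3 := hg h.1
      have h4 := hg h.2
      omega
    · have h3 := hg h.1
      have h4 := hg h.2
      omega
  refine hG T' hT'c ?_ hcell ?_
  · intro s hs
    have h1 := hT s (hmem s hs).1
    exact ⟨by omega, by omega, h1.1⟩
  · intro s hs s' hs'
    have h1 := hT s (hmem s hs).1
    have h2 := hT s' (hmem s' hs').1
    have h3 := hcell s hs s' hs'
    have e1 : s.1 = s'.1 → s.2 = s'.2 := by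
      intro h
      apply hc' _ _ (by omega) (by omega) h3.2
      have a1 : c s.1 = c' s.2 := h1.1
      have a2 : c s'.1 = c' s'.2 := h2.1
      rw [← a1, ← a2, h]
    have e2 : s.2 = s'.2 → s.1 = s'.1 := by
      intro h
      apply hc _ _ (by omega) (by omega) h3.1
      have a1 : c s.1 = c' s.2 := h1.1
      have a2 : c s'.1 = c' s'.2 := h2.1
      rw [a1, a2, h]
    rcases hT1 s (hmem s hs).1 s' (hmem s' hs').1 with h | h
    · have h5 := h.1
      have h6 := h.2
      constructor
      · intro h7
        rcases Nat.lt_or_ge s.2 s'.2 with h8 | h8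
        · exact h8
        · have := e2 (le_antisymm h6 h8); omega
      · intro h7
        rcases Nat.lt_or_ge s.1 s'.1 with h8 | h8
        · exact h8
        · have := e1 (le_antisymm h5 h8); omega
    · have h5 := h.1
      have h6 := h.2
      constructor
      · intro h7; omega
      · intro h7; omega

end Pool.PBL
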