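import Mathlib
import Pool.Agent.PBL.Chain

/-!
A permutation of the colours with small common subsequences in every cell exists by counting.
-/

set_option autoImplicit false

namespace Pool.PBL

open Finset

/-- number of permutations with prescribed values on `L` points -/
theorem card_perm_le {k L : ℕ} (u v : Fin L → Fin k) (hu : Function.Injective u) :
    (univ.filter (fun π : Equiv.Perm (Fin k) => ∀ r, π (u r) = v r)).card ≤ (k - L).factorial := by
  classical
  rcases Finset.eq_empty_or_nonempty
    (univ.filter (fun π : Equiv.Perm (Fin k) => ∀ r, π (u r) = v r)) with h | ⟨π₀, h₀⟩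
  · rw [h]; simp
  · rw [Finset.mem_filter] at h₀
    let p : Fin k → Prop := fun a => a ∉ univ.image u
    have hcard : Fintype.card (Subtype p) = k - L := by
      have h1 : Fintype.card (Subtype p) = (univ.filter p).card := Fintype.card_subtype p
      have h2 : univ.filter p = (univ.image u)ᶜ := by
        ext a; simp [p]
      rw [h1, h2, card_compl, card_image_of_injective _ hu]
      simp
    have hperm : Fintype.card { f : Equiv.Perm (Fin k) // ∀ a, ¬ p a → f a = a } =
        (k - L).factorial := by
      rw [← Fintype.card_congr (Equiv.Perm.subtypeEquivSubtypePerm p), Fintype.card_perm, hcard]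
    rw [← hperm, Fintype.card_subtype]
    apply Finset.card_le_card_of_injOn (fun π => π₀⁻¹ * π)
    · intro π hπ
      simp only [coe_filter, mem_univ, true_and, Set.mem_ofPred_eq] at hπ ⊢
      intro a ha
      simp only [p, mem_image, mem_univ, true_and, not_exists, not_forall, not_not] at ha
      obtain ⟨r, rfl⟩ := ha
      show π₀⁻¹ (π (u r)) = u r
      rw [hπ r, ← h₀.2 r]
      exact π₀.symm_apply_apply (u r)
    · intro π _ π' _ h
      exact mul_left_cancel h

theorem pow_self_le (L : ℕ) : L ^ L ≤ 3 ^ L * L.factorial := by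
  have h1 := Real.pow_div_factorial_le_exp (L : ℝ) (by positivity) L
  have h2 : Real.exp (L : ℝ) ≤ 3 ^ L := by
    have : Real.exp (L : ℝ) = Real.exp 1 ^ L := by
      rw [← Real.exp_nat_mul, mul_one]
    rw [this]
    apply pow_le_pow_left₀ (Real.exp_pos 1).le
    have := Real.exp_one_lt_d9
    linarith
  have h3 : (0 : ℝ) < L.factorial := by positivity
  have h4 : (L : ℝ) ^ L ≤ 3 ^ L * L.factorial := by
    rw [div_le_iff₀ h3] at h1
    calc (L : ℝ) ^ L ≤ Real.exp L * L.factorial := h1
      _ ≤ 3 ^ L * L.factorial := by gcongr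
  exact_mod_cast h4

theorem two_mul_pow_le {k L : ℕ} (h : 18 * k ≤ L ^ 2) : (2 * k) ^ L ≤ L.factorial ^ 2 := by
  have h1 := pow_self_le L
  have h2 : (L ^ L) ^ 2 ≤ (3 ^ L * L.factorial) ^ 2 := Nat.pow_le_pow_left h1 2
  have h3 : (9 * (2 * k)) ^ L ≤ (L ^ L) ^ 2 := by
    rw [← pow_mul, mul_comm L 2, pow_mul]
    exact Nat.pow_le_pow_left (by omega) L
  have h4 : (3 ^ L * L.factorial) ^ 2 = 9 ^ L * L.factorial ^ 2 := by
    rw [mul_pow, ← pow_mul, mul_comm L 2, pow_mul]
    norm_num
  have h5 : 9 ^ L * (2 * k) ^ L ≤ 9 ^ L * L.factorial ^ 2 := by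
    rw [← mul_pow, ← h4]
    exact h3.trans h2
  exact Nat.le_of_mul_le_mul_left h5 (by positivity)

theorem count_lt {k t L : ℕ} (hk : 0 < k) (h : 18 * k ≤ L ^ 2) (ht : t ^ 2 < 2 ^ L) :
    (t * k.choose L) ^ 2 * (k - L).factorial < k.factorial := by
  rcases Nat.lt_or_ge k L with hL | hL
  · rw [Nat.choose_eq_zero_of_lt hL]
    simp [Nat.factorial_pos]
  · have h1 := Nat.choose_mul_factorial_mul_factorial hL
    have h2 : k.choose L * L.factorial ≤ k ^ L := by
      have := Nat.descFactorial_le_pow k L
      rw [Nat.descFactorial_eq_factorial_mul_choose] at this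
      linarith [mul_comm (k.choose L) L.factorial]
    have h3 : t ^ 2 * k ^ L < (2 * k) ^ L := by
      rw [mul_pow]
      exact Nat.mul_lt_mul_of_pos_right ht (by positivity)
    have h4 := two_mul_pow_le h
    have h5 : t ^ 2 * (k.choose L) < L.factorial := by
      have hpos : 0 < L.factorial := Nat.factorial_pos L
      have : t ^ 2 * (k.choose L) * L.factorial < L.factorial * L.factorial := by
        calc t ^ 2 * (k.choose L) * L.factorial = t ^ 2 * (k.choose L * L.factorial) := by ring
          _ ≤ t ^ 2 * k ^ L := Nat.mul_le_mul_left _ h2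
          _ < (2 * k) ^ L := h3
          _ ≤ L.factorial ^ 2 := h4
          _ = L.factorial * L.factorial := by ring
      exact Nat.lt_of_mul_lt_mul_right this
    have h6 : 0 < k.choose L * (k - L).factorial :=
      Nat.mul_pos (Nat.choose_pos hL) (Nat.factorial_pos _)
    calc (t * k.choose L) ^ 2 * (k - L).factorial
        = t ^ 2 * (k.choose L) * (k.choose L * (k - L).factorial) := by ring
      _ < L.factorial * (k.choose L * (k - L).factorial) := Nat.mul_lt_mul_of_pos_right h5 h6
      _ = k.choose L * L.factorial * (k - L).factorial := by ring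
      _ = k.factorial := h1

/-- the permutation -/
theorem exists_good {k n t L : ℕ} (hk : 0 < k) (h : 18 * k ≤ L ^ 2) (ht : t ^ 2 < 2 ^ L)
    {g : ℕ → ℕ} (hgt : ∀ i, i < n → g i < t) {c : ℕ → Fin k}
    (hc : ∀ i j, i < n → j < n → g i = g j → c i = c j → i = j) :
    ∃ π : Equiv.Perm (Fin k), Good n L g c (fun i => π (c i)) := by
  classical
  by_contra hcon
  push Not at hcon
  -- the family of `L`-subsets of segments
  let seg : ℕ → Finset ℕ := fun I => (range n).filter (fun i => g i = I)
  have hseg : ∀ I, (seg I).card ≤ k := by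
    intro I
    have : (seg I).card ≤ (univ : Finset (Fin k)).card := by
      apply card_le_card_of_injOn c (fun _ _ => mem_coe.mpr (mem_univ _))
      intro i hi j hj hij
      simp only [seg, coe_filter, mem_range, Set.mem_ofPred_eq] at hi hj
      exact hc i j hi.1 hj.1 (hi.2.trans hj.2.symm) hij
    simpa using this
  let 𝒳 : Finset (Finset ℕ) := (range t).biUnion (fun I => powersetCard L (seg I))
  have h𝒳 : 𝒳.card ≤ t * k.choose L := by
    refine le_trans card_biUnion_le ?_
    calc ∑ I ∈ range t, (powersetCard L (seg I)).card ≤ ∑ I ∈ range t, k.choose L := by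
          apply sum_le_sum
          intro I _
          rw [card_powersetCard]
          exact Nat.choose_le_choose L (hseg I)
      _ = t * k.choose L := by simp
  have h𝒳mem : ∀ X ∈ 𝒳, X.card = L ∧ (∀ i ∈ X, i < n) ∧ ∀ i ∈ X, ∀ j ∈ X, g i = g j := by
    intro X hX
    simp only [𝒳, mem_biUnion, mem_powersetCard] at hX
    obtain ⟨I, -, h1, h2⟩ := hX
    refine ⟨h2, fun i hi => ?_, fun i hi j hj => ?_⟩
    · have := h1 hi
      simp only [seg, mem_filter, mem_range] at this
      exact this.1
    · have a1 := h1 hi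
      have a2 := h1 hj
      simp only [seg, mem_filter, mem_range] at a1 a2
      exact a1.2.trans a2.2.symm
  let compat : Finset ℕ × Finset ℕ → Finset (Equiv.Perm (Fin k)) := fun XY =>
    univ.filter (fun π => ∀ (hX : XY.1.card = L) (hY : XY.2.card = L) (r : Fin L),
      π (c (XY.2.orderEmbOfFin hY r)) = c (XY.1.orderEmbOfFin hX r))
  have hcompat : ∀ XY ∈ 𝒳 ×ˢ 𝒳, (compat XY).card ≤ (k - L).factorial := by
    rintro ⟨X, Y⟩ hXY
    rw [mem_product] at hXY
    obtain ⟨hX, -, -⟩ := h𝒳mem X hXY.1
    obtain ⟨hY, hY1, hY2⟩ := h𝒳mem Y hXY.2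
    refine le_trans ?_ (card_perm_le (fun r => c (Y.orderEmbOfFin hY r))
      (fun r => c (X.orderEmbOfFin hX r)) ?_)
    · apply card_le_card
      intro π hπ
      simp only [compat, mem_filter, mem_univ, true_and] at hπ ⊢
      exact hπ hX hY
    · intro r r' hrr
      have m1 := orderEmbOfFin_mem Y hY r
      have m2 := orderEmbOfFin_mem Y hY r'
      have := hc _ _ (hY1 _ m1) (hY1 _ m2) (hY2 _ m1 _ m2) hrr
      exact (Y.orderEmbOfFin hY).injective this
  have hcover : (univ : Finset (Equiv.Perm (Fin k))) ⊆ (𝒳 ×ˢ 𝒳).biUnion compat := by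
    intro π _
    have hbad := hcon π
    unfold Good at hbad
    push Not at hbad
    obtain ⟨T, hTL, hT1, hT2, hT3, -⟩ := hbad
    set X := T.image Prod.fst with hXdef
    set Y := T.image Prod.snd with hYdef
    have inj1 : Set.InjOn Prod.fst (T : Set (ℕ × ℕ)) := by
      intro s hs s' hs' hss
      have a1 := hT3 s hs s' hs'
      have a2 := hT3 s' hs' s hs
      have : s.2 = s'.2 := by omega
      exact Prod.ext hss this
    have inj2 : Set.InjOn Prod.snd (T : Set (ℕ × ℕ)) := by
      intro s hs s' hs' hss
      have a1 := hT3 s hs s' hs'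
      have a2 := hT3 s' hs' s hs
      have : s.1 = s'.1 := by omega
      exact Prod.ext this hss
    have hX : X.card = L := by rw [hXdef, card_image_of_injOn inj1, hTL]
    have hY : Y.card = L := by rw [hYdef, card_image_of_injOn inj2, hTL]
    have memX : X ∈ 𝒳 := by
      rcases T.eq_empty_or_nonempty with rfl | ⟨s₀, hs₀⟩
      · -- then `L = 0`
        exfalso
        have hL : L = 0 := by simpa using hTL.symm
        subst hL
        have h18 : 18 * k ≤ 0 := by simpa using h
        omega
      · simp only [𝒳, mem_biUnion, mem_powersetCard, mem_range]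
        refine ⟨g s₀.1, hgt _ (hT1 s₀ hs₀).1, ?_, hX⟩
        intro i hi
        rw [hXdef, mem_image] at hi
        obtain ⟨s, hs, rfl⟩ := hi
        simp only [seg, mem_filter, mem_range]
        exact ⟨(hT1 s hs).1, (hT2 s hs s₀ hs₀).1⟩
    have memY : Y ∈ 𝒳 := by
      rcases T.eq_empty_or_nonempty with rfl | ⟨s₀, hs₀⟩
      · exfalso
        have hL : L = 0 := by simpa using hTL.symm
        subst hL
        have h18 : 18 * k ≤ 0 := by simpa using h
        omega
      · simp only [𝒳, mem_biUnion, mem_powersetCard, mem_range]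
        refine ⟨g s₀.2, hgt _ (hT1 s₀ hs₀).2.1, ?_, hY⟩
        intro i hi
        rw [hYdef, mem_image] at hi
        obtain ⟨s, hs, rfl⟩ := hi
        simp only [seg, mem_filter, mem_range]
        exact ⟨(hT1 s hs).2.1, (hT2 s hs s₀ hs₀).2⟩
    rw [mem_biUnion]
    refine ⟨(X, Y), mem_product.mpr ⟨memX, memY⟩, ?_⟩
    simp only [compat, mem_filter, mem_univ, true_and]
    intro hX' hY' r
    -- partner of the `r`-th element of `X`
    have hex : ∀ r : Fin L, ∃ s ∈ T, s.1 = X.orderEmbOfFin hX' r := by
      intro r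
      have h1 : X.orderEmbOfFin hX' r ∈ T.image Prod.fst := orderEmbOfFin_mem X hX' r
      obtain ⟨s, hs, h⟩ := mem_image.mp h1
      exact ⟨s, hs, h⟩
    choose sel hsel hsel1 using hex
    have hmono : StrictMono (fun r => (sel r).2) := by
      intro a b hab
      have : (sel a).1 < (sel b).1 := by
        rw [hsel1, hsel1]
        exact (X.orderEmbOfFin hX').strictMono hab
      exact (hT3 _ (hsel a) _ (hsel b)).mp this
    have huniq := orderEmbOfFin_unique hY' (f := fun r => (sel r).2)
      (fun r => by
        rw [hYdef]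
        exact mem_image_of_mem _ (hsel r)) hmono
    have e1 : (sel r).2 = Y.orderEmbOfFin hY' r := congrFun huniq r
    have e2 := (hT1 _ (hsel r)).2.2
    rw [← hsel1 r, ← e1]
    exact e2.symm
  have hcount : k.factorial ≤ (t * k.choose L) ^ 2 * (k - L).factorial := by
    calc k.factorial = (univ : Finset (Equiv.Perm (Fin k))).card := by
          rw [card_univ, Fintype.card_perm, Fintype.card_fin]
      _ ≤ ((𝒳 ×ˢ 𝒳).biUnion compat).card := card_le_card hcover
      _ ≤ (𝒳 ×ˢ 𝒳).card * (k - L).factorial := card_biUnion_le_card_mul _ _ _ hcompat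
      _ = 𝒳.card ^ 2 * (k - L).factorial := by rw [card_product, sq]
      _ ≤ (t * k.choose L) ^ 2 * (k - L).factorial := by gcongr
  exact absurd (count_lt hk h ht) (not_lt.mpr hcount)

end Pool.PBL
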