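import Mathlib

/-!
Blocked generalised configurations: basic definitions and moves.

A generalised configuration of `n` points (Goodman and Pollack: points together with the pseudolines
joining them) is encoded by its allowable sequence.  The points are numbered `0, …, n - 1` from left
to right; the words of the sequence are the orders in which a rotating pseudoline direction sees the
points.  The first word is `0 1 … n-1`, the last word is its reverse, and every step reverses one
block of at least two consecutive entries which stand in increasing order; the entries of the block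
are the points on one pseudoline, in their order on this pseudoline.

The idea of the construction (cross phase, antichain pseudolines, colour permutations with small
common subsequences) is due to helper77.
-/

set_option autoImplicit false

namespace Pool.PBL

open Relation

/-- One step of a blocked allowable sequence, from the word `s = u w v` to the word `s'`: the block `w`
of at least two consecutive entries, which stand in increasing order, is reversed (the entries of `w`
are the points of one pseudoline, in their order on it).  The pseudoline satisfies the blocking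
condition for the colouring `c`: two points of `w` have the same colour exactly when there is another
point of `w` between them. -/
def Move {κ : Type*} (c : ℕ → κ) (s s' : List ℕ) : Prop :=
  ∃ u w v : List ℕ, s = u ++ w ++ v ∧ s' = u ++ w.reverse ++ v ∧ 2 ≤ w.length ∧
    w.Pairwise (· < ·) ∧
    ∀ (i j : ℕ) (hi : i < w.length) (hj : j < w.length), i < j →
      (c (w[i]) = c (w[j]) ↔ i + 1 < j)

/-- The second word can be reached from the first one by finitely many steps. -/
def Reach {κ : Type*} (c : ℕ → κ) : List ℕ → List ℕ → Prop := ReflTransGen (Move c)

/-- There is a `k`-blocked generalised configuration with `n` points: an allowable sequence from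
`0 1 … n-1` to its reverse and a colouring of the points with `k` colours such that on every
pseudoline two points have the same colour exactly when there is another point between them.  (Only
the values `c 0, …, c (n - 1)` matter.) -/
def GenBlocked (k n : ℕ) : Prop :=
  ∃ c : ℕ → Fin k, Reach c (List.range n) (List.range n).reverse

variable {κ : Type*} {c : ℕ → κ}

theorem Move.swap (u v : List ℕ) {x y : ℕ} (h : x < y) (hc : c x ≠ c y) :
    Move c (u ++ x :: y :: v) (u ++ y :: x :: v) := by
  refine ⟨u, [x, y], v, by simp, by simp, by simp, by simpa using h, ?_⟩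
  intro i j hi hj hij
  have hj1 : j = 1 := by simp at hj; omega
  have hi0 : i = 0 := by omega
  subst hj1 hi0
  simpa using hc

theorem Move.flip (u v : List ℕ) {x y z : ℕ} (h : x < y) (h' : y < z) (hc : c x ≠ c y)
    (hz : c x = c z) :
    Move c (u ++ x :: y :: z :: v) (u ++ z :: y :: x :: v) := by
  refine ⟨u, [x, y, z], v, by simp, by simp, by simp, ?_, ?_⟩
  · simp only [List.pairwise_cons, List.mem_cons, List.not_mem_nil, or_false, forall_eq_or_imp,
      forall_eq, IsEmpty.forall_iff, implies_true, List.Pairwise.nil, and_true]
    omega
  · intro i j hi hj hij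
    have hj1 : j < 3 := by simpa using hj
    have hi1 : i < 3 := by simpa using hi
    interval_cases j
    · omega
    · have : i = 0 := by omega
      subst this
      simpa using hc
    · interval_cases i
      · simpa using hz
      · have : c y ≠ c z := by rw [← hz]; exact hc.symm
        simpa using this

theorem Move.ctx {s s' : List ℕ} (h : Move c s s') (u v : List ℕ) :
    Move c (u ++ s ++ v) (u ++ s' ++ v) := by
  obtain ⟨p, w, q, rfl, rfl, h2, h3, h4⟩ := h
  exact ⟨u ++ p, w, q ++ v, by simp, by simp, h2, h3, h4⟩

theorem Reach.refl (s : List ℕ) : Reach c s s := ReflTransGen.refl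

theorem Reach.trans {s s' s'' : List ℕ} (h : Reach c s s') (h' : Reach c s' s'') : Reach c s s'' :=
  ReflTransGen.trans h h'

theorem Reach.ctx {s s' : List ℕ} (h : Reach c s s') (u v : List ℕ) :
    Reach c (u ++ s ++ v) (u ++ s' ++ v) := by
  induction h with
  | refl => exact ReflTransGen.refl
  | tail _ h ih => exact ih.tail (h.ctx u v)

theorem Reach.left {s s' : List ℕ} (h : Reach c s s') (u : List ℕ) :
    Reach c (u ++ s) (u ++ s') := by
  simpa using h.ctx u []

theorem Reach.right {s s' : List ℕ} (h : Reach c s s') (v : List ℕ) :
    Reach c (s ++ v) (s' ++ v) := by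
  simpa using h.ctx [] v

theorem Reach.cons {s s' : List ℕ} (h : Reach c s s') (a : ℕ) :
    Reach c (a :: s) (a :: s') := by
  simpa using h.left [a]

theorem Move.perm {s s' : List ℕ} (h : Move c s s') : s.Perm s' := by
  obtain ⟨p, w, q, rfl, rfl, -, -, -⟩ := h
  exact (((List.reverse_perm w).symm).append_left p).append_right q

theorem Reach.perm {s s' : List ℕ} (h : Reach c s s') : s.Perm s' := by
  induction h with
  | refl => exact List.Perm.refl _
  | tail _ h ih => exact ih.trans h.perm

theorem Move.map {κ' : Type*} {c' : ℕ → κ'} {n : ℕ} {f : ℕ → ℕ} (hf : StrictMono f)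
    (hc : ∀ x y, x < n → y < n → (c' (f x) = c' (f y) ↔ c x = c y)) {s s' : List ℕ}
    (h : Move c s s') (hs : ∀ x ∈ s, x < n) : Move c' (s.map f) (s'.map f) := by
  obtain ⟨p, w, q, rfl, rfl, h2, h3, h4⟩ := h
  refine ⟨p.map f, w.map f, q.map f, by simp, by simp, by simpa using h2, ?_, ?_⟩
  · rw [List.pairwise_map]
    exact h3.imp (fun h => hf h)
  · intro i j hi hj hij
    have hi' : i < w.length := by simpa using hi
    have hj' : j < w.length := by simpa using hj
    have hwi : w[i] < n := hs _ (by simp)
    have hwj : w[j] < n := hs _ (by simp)
    rw [List.getElem_map, List.getElem_map, hc _ _ hwi hwj]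
    exact h4 i j hi' hj' hij

theorem Reach.map {κ' : Type*} {c' : ℕ → κ'} {n : ℕ} {f : ℕ → ℕ} (hf : StrictMono f)
    (hc : ∀ x y, x < n → y < n → (c' (f x) = c' (f y) ↔ c x = c y)) {s s' : List ℕ}
    (h : Reach c s s') (hs : ∀ x ∈ s, x < n) : Reach c' (s.map f) (s'.map f) := by
  induction h with
  | refl => exact ReflTransGen.refl
  | tail h1 h ih =>
    refine ih.tail (h.map hf hc ?_)
    intro x hx
    exact hs x ((Reach.perm h1).mem_iff.mpr hx)

/-- one entry moves to the left over a block -/
theorem Reach.passLeft {z : ℕ} : ∀ bs : List ℕ, (∀ b ∈ bs, b < z ∧ c b ≠ c z) →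
    Reach c (bs ++ [z]) (z :: bs)
  | [], _ => Reach.refl _
  | b :: bs, h => by
    have h1 := (Reach.passLeft bs (fun x hx => h x (by simp [hx]))).cons b
    have h2 : Move c (b :: z :: bs) (z :: b :: bs) := by
      have := h b (by simp)
      simpa using Move.swap [] bs this.1 this.2
    exact h1.tail h2

/-- one entry moves to the right over a block -/
theorem Reach.passRight {a : ℕ} : ∀ bs : List ℕ, (∀ b ∈ bs, a < b ∧ c a ≠ c b) →
    Reach c (a :: bs) (bs ++ [a])
  | [], _ => Reach.refl _
  | b :: bs, h => by
    have h1 := (Reach.passRight bs (fun x hx => h x (by simp [hx]))).cons b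
    have h2 : Move c (a :: b :: bs) (b :: a :: bs) := by
      have := h b (by simp)
      simpa using Move.swap [] bs this.1 this.2
    exact ReflTransGen.head h2 h1

/-- the integers `s, s+1, …, e-1` -/
def R (s e : ℕ) : List ℕ := List.range' s (e - s)

theorem R_append {s e f : ℕ} (h : s ≤ e) (h' : e ≤ f) : R s e ++ R e f = R s f := by
  unfold R
  obtain ⟨a, rfl⟩ := Nat.exists_eq_add_of_le h
  obtain ⟨b, rfl⟩ := Nat.exists_eq_add_of_le h'
  rw [show s + a - s = a by omega, show s + a + b - (s + a) = b by omega,
    show s + a + b - s = a + b by omega]
  exact List.range'_append_1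

theorem R_self (s : ℕ) : R s s = [] := by simp [R]

theorem mem_R {s e x : ℕ} : x ∈ R s e ↔ s ≤ x ∧ x < e := by
  unfold R
  rw [List.mem_range'_1]
  omega

theorem R_succ (s : ℕ) : R s (s + 1) = [s] := by simp [R]

theorem R_cons {s e : ℕ} (h : s < e) : R s e = s :: R (s + 1) e := by
  rw [← R_append (Nat.le_succ s) h, R_succ]
  rfl

theorem R_zero (n : ℕ) : R 0 n = List.range n := by
  simp [R, List.range_eq_range']

end Pool.PBL
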