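import Mathlib
import Pool.Agent.PBL.Core

/-!
The cross phase: three blocks `A`, `B`, `C` of points; the colours of `B` differ from all others and
the equal-coloured pairs in `A × C` are covered by few increasing steps.
-/

set_option autoImplicit false

namespace Pool.PBL

open Relation

/-- tail of a word: the entries `i, i+1, …` (with `d` of them) of the first block, the entries of the
second block (which starts at `n`) placed between them: `q i` entries of the second block stand to
the left of `i`. -/
def X (n : ℕ) (q : ℕ → ℕ) : ℕ → ℕ → List ℕ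
  | _, 0 => []
  | i, d + 1 => i :: (R (n + q i) (n + q (i + 1)) ++ X n q (i + 1) d)

variable {κ : Type*} {c : ℕ → κ}

/-- the entries of the second block move to the left -/
theorem move_X {n m : ℕ} (hAB : ∀ a b, a < n → n ≤ b → b < n + m → c a ≠ c b)
    {q q' : ℕ → ℕ} (hq : Monotone q) (hq' : Monotone q') (hqq : ∀ i, q i ≤ q' i)
    (hm : ∀ i, q' i ≤ m) (hn : q n = m) :
    ∀ d i, i + d = n → Reach c (X n q i d) (R (n + q i) (n + q' i) ++ X n q' i d)
  | 0, i, h => by
    have hi : i = n := by omega
    subst hi
    have h1 : q' i = m := le_antisymm (hm i) (hn ▸ hqq i)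
    rw [hn, h1, R_self]
    exact Reach.refl _
  | d + 1, i, h => by
    have ih := move_X hAB hq hq' hqq hm hn d (i + 1) (by omega)
    have h1 := (ih.left (R (n + q i) (n + q (i + 1)))).cons i
    have e1 : q i ≤ q (i + 1) := hq (Nat.le_succ i)
    have e2 : q' i ≤ q' (i + 1) := hq' (Nat.le_succ i)
    have e3 := hqq i
    have e4 := hqq (i + 1)
    have e5 := hm i
    have e6 := hm (i + 1)
    have h2 : R (n + q i) (n + q (i + 1)) ++ (R (n + q (i + 1)) (n + q' (i + 1)) ++
        X n q' (i + 1) d) = R (n + q i) (n + q' i) ++ (R (n + q' i) (n + q' (i + 1)) ++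
        X n q' (i + 1) d) := by
      rw [← List.append_assoc, ← List.append_assoc, R_append (by omega) (by omega),
        R_append (by omega) (by omega)]
    rw [h2] at h1
    have h3 : Reach c (i :: R (n + q i) (n + q' i)) (R (n + q i) (n + q' i) ++ [i]) := by
      apply Reach.passRight
      intro b hb
      rw [mem_R] at hb
      exact ⟨by omega, hAB i b (by omega) (by omega) (by omega)⟩
    have h4 := h3.right (R (n + q' i) (n + q' (i + 1)) ++ X n q' (i + 1) d)
    refine Reach.trans h1 ?_
    simpa [X] using h4

/-- one entry of the third block passes -/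
theorem row_X {n m z : ℕ} (hz : n + m ≤ z) (hBC : ∀ b, n ≤ b → b < n + m → c b ≠ c z)
    (hAB : ∀ a b, a < n → n ≤ b → b < n + m → c a ≠ c b)
    {q q' : ℕ → ℕ} (hmq : ∀ i, q i ≤ m) (hmq' : ∀ i, q' i ≤ m) (hn : q n = m)
    (h1 : ∀ i, i < n → c i = c z → q' i = q i + 1)
    (h2 : ∀ i, i < n → c i ≠ c z → q' i = q i)
    (h3 : ∀ i, i < n → q' i ≤ q (i + 1)) (h4 : ∀ i, q i ≤ q' i) :
    ∀ d i, i + d = n →
      Reach c (X n q i d ++ [z]) (z :: (R (n + q i) (n + q' i) ++ X n q' i d))
  | 0, i, h => by
    have hi : i = n := by omega
    subst hi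
    have h5 : q' i = m := le_antisymm (hmq' i) (hn ▸ h4 i)
    rw [hn, h5, R_self]
    exact Reach.refl _
  | d + 1, i, h => by
    have ih := row_X hz hBC hAB hmq hmq' hn h1 h2 h3 h4 d (i + 1) (by omega)
    have g1 := (ih.left (R (n + q i) (n + q (i + 1)))).cons i
    have hin : i < n := by omega
    have e1 := h3 i hin
    have e2 := h4 i
    have e3 := h4 (i + 1)
    have e5 := hmq' i
    have e6 := hmq (i + 1)
    have e7 := hmq' (i + 1)
    -- split the block
    rw [← R_append (show n + q i ≤ n + q' i by omega) (show n + q' i ≤ n + q (i + 1) by omega)] at g1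
    -- z passes the second half
    have g2 : Reach c (R (n + q' i) (n + q (i + 1)) ++ [z]) (z :: R (n + q' i) (n + q (i + 1))) := by
      apply Reach.passLeft
      intro b hb
      rw [mem_R] at hb
      exact ⟨by omega, hBC b (by omega) (by omega)⟩
    have g3 := (g2.ctx (i :: R (n + q i) (n + q' i))
      (R (n + q (i + 1)) (n + q' (i + 1)) ++ X n q' (i + 1) d))
    have e8 : R (n + q' i) (n + q (i + 1)) ++ (R (n + q (i + 1)) (n + q' (i + 1)) ++
        X n q' (i + 1) d) = R (n + q' i) (n + q' (i + 1)) ++ X n q' (i + 1) d := by
      rw [← List.append_assoc, R_append (by omega) (by omega)]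
    have g4 : Reach c (X n q i (d + 1) ++ [z])
        (i :: (R (n + q i) (n + q' i) ++ z :: (R (n + q' i) (n + q' (i + 1)) ++
          X n q' (i + 1) d))) := by
      rw [← e8]
      have g1' : Reach c (X n q i (d + 1) ++ [z]) (i :: (R (n + q i) (n + q' i) ++
        (R (n + q' i) (n + q (i + 1)) ++ z :: (R (n + q (i + 1)) (n + q' (i + 1)) ++
          X n q' (i + 1) d)))) := by
        have e9 := R_append (show n + q i ≤ n + q' i by omega)
          (show n + q' i ≤ n + q (i + 1) by omega)
        simp only [X, ← e9]
        simpa using g1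
      refine Reach.trans g1' ?_
      simpa using g3
    refine Reach.trans g4 ?_
    by_cases hc : c i = c z
    · have e10 := h1 i hin hc
      have e11 : R (n + q i) (n + q' i) = [n + q i] := by
        rw [e10]
        exact R_succ _
      rw [e11]
      have := Move.flip [] (R (n + q' i) (n + q' (i + 1)) ++ X n q' (i + 1) d)
        (show i < n + q i by omega) (show n + q i < z by omega)
        (hAB i (n + q i) hin (by omega) (by omega)) hc
      exact ReflTransGen.single (by simpa [X] using this)
    · have e10 := h2 i hin hc
      have e11 : R (n + q i) (n + q' i) = [] := by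
        rw [e10]
        exact R_self _
      rw [e11]
      have := Move.swap [] (R (n + q' i) (n + q' (i + 1)) ++ X n q' (i + 1) d)
        (show i < z by omega) hc
      exact ReflTransGen.single (by simpa [X] using this)

theorem X_zero {n m : ℕ} {q : ℕ → ℕ} (h0 : ∀ i, i < n → q i = 0) (hn : q n = m) :
    ∀ d i, i + d = n → 0 < d → X n q i d = R i n ++ R n (n + m)
  | 0, i, h, hd => absurd hd (lt_irrefl _)
  | 1, i, h, hd => by
    have hi : i + 1 = n := by omega
    rw [X, X, h0 i (by omega), hi, hn, R_cons (show i < n by omega), hi, R_self]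
    simp
  | d + 2, i, h, hd => by
    have ih := X_zero h0 hn (d + 1) (i + 1) (by omega) (by omega)
    rw [X, h0 i (by omega), h0 (i + 1) (by omega), R_self, ih, R_cons (show i < n by omega)]
    simp

theorem X_const {n m : ℕ} : ∀ d i, i + d = n → X n (fun _ => m) i d = R i n
  | 0, i, h => by
    have hi : i = n := by omega
    subst hi
    simp [X, R_self]
  | d + 1, i, h => by
    rw [X, X_const d (i + 1) (by omega), R_self, R_cons (show i < n by omega)]
    simp

/-- The cross phase. -/
theorem cross {n m : ℕ} (hAB : ∀ a b, a < n → n ≤ b → b < n + m → c a ≠ c b)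
    (hBC : ∀ b z, n ≤ b → b < n + m → n + m ≤ z → z < n + m + n → c b ≠ c z)
    (F : ℕ → ℕ → ℕ) (hF0 : ∀ i, F i 0 = 0)
    (h1 : ∀ i l, i < n → l < n → c i = c (n + m + l) →
      F i (l + 1) + 1 ≤ F (i + 1) (l + 1) ∧ F (i + 1) l + 1 ≤ F (i + 1) (l + 1))
    (h2 : ∀ i l, F i (l + 1) ≤ F (i + 1) (l + 1) ∧ F (i + 1) l ≤ F (i + 1) (l + 1))
    (hm : ∀ i l, i ≤ n → l ≤ n → F i l ≤ m) :
    Reach c (R 0 n ++ R n (n + m) ++ R (n + m) (n + m + n))
      (R (n + m) (n + m + n) ++ R n (n + m) ++ R 0 n) := by
  classical
  rcases Nat.eq_zero_or_pos n with rfl | hn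
  · simp only [R_self, Nat.add_zero]
    simpa using Reach.refl _
  -- the states
  set G : ℕ → ℕ → ℕ := fun l i => if i < n then F (i + 1) l else m with hG
  have hGn : ∀ l, G l n = m := fun l => by simp [hG]
  have hGle : ∀ l, l ≤ n → ∀ i, G l i ≤ m := by
    intro l hl i
    simp only [hG]
    split_ifs with h
    · exact hm _ _ (by omega) hl
    · exact le_rfl
  have hFmono : ∀ l, Monotone (fun i => F i (l + 1)) := fun l =>
    monotone_nat_of_le_succ (fun i => (h2 i l).1)
  have hGmono : ∀ l, l ≤ n → Monotone (G l) := by
    intro l hl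
    apply monotone_nat_of_le_succ
    intro i
    simp only [hG]
    rcases Nat.eq_zero_or_pos l with rfl | hl0
    · simp only [hF0]
      split_ifs <;> omega
    · obtain ⟨l', rfl⟩ := Nat.exists_eq_succ_of_ne_zero hl0.ne'
      split_ifs with h h'
      · exact (h2 (i + 1) l').1
      · exact hm _ _ (by omega) hl
      · omega
      · exact le_rfl
  -- the word in state `q`
  have key : ∀ l, l ≤ n → Reach c (R 0 n ++ R n (n + m) ++ R (n + m) (n + m + n))
      (R (n + m) (n + m + l) ++ (R n (n + G l 0) ++ X n (G l) 0 n) ++
        R (n + m + l) (n + m + n)) := by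
    intro l
    induction l with
    | zero =>
      intro _
      have e0 : ∀ i, i < n → G 0 i = 0 := by
        intro i hi
        simp [hG, hi, hF0]
      rw [X_zero e0 (hGn 0) n 0 (by omega) hn, e0 0 hn]
      simp only [Nat.add_zero, R_self]
      simpa using Reach.refl _
    | succ l ih =>
      intro hl
      refine Reach.trans (ih (by omega)) ?_
      have hl' : l < n := by omega
      set z := n + m + l with hz
      have hzn : z < n + m + n := by omega
      rw [R_cons hzn]
      have e1 : R (n + m) (n + m + (l + 1)) = R (n + m) (n + m + l) ++ [z] := by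
        rw [← R_append (show n + m ≤ n + m + l by omega) (show n + m + l ≤ n + m + (l + 1) by omega)]
        congr 1
        exact R_succ _
      rw [e1]
      -- intermediate state
      set q : ℕ → ℕ := fun i => if i < n then F (i + 1) (l + 1) - (if c i = c z then 1 else 0)
        else m with hq
      have hqn : q n = m := by simp [hq]
      have hq1 : ∀ i, i < n → c i = c z → G (l + 1) i = q i + 1 := by
        intro i hi hc
        have := (h1 i l hi hl' hc).1
        simp only [hG, hq, hi, if_true, hc]
        omega
      have hq2 : ∀ i, i < n → c i ≠ c z → G (l + 1) i = q i := by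
        intro i hi hc
        simp only [hG, hq, hi, if_true, hc, if_false]
        omega
      have hq3 : ∀ i, i < n → G (l + 1) i ≤ q (i + 1) := by
        intro i hi
        simp only [hG, hq, hi, if_true]
        split_ifs with h h'
        · have := (h1 (i + 1) l h hl' h').1
          omega
        · have := (h2 (i + 1) l).1
          omega
        · exact hm _ _ (by omega) hl
      have hq4 : ∀ i, q i ≤ G (l + 1) i := by
        intro i
        by_cases hi : i < n
        · by_cases hc : c i = c z
          · rw [hq1 i hi hc]; omega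
          · rw [hq2 i hi hc]
        · simp [hG, hq, hi]
      have hq5 : ∀ i, q i ≤ m := fun i => (hq4 i).trans (hGle (l + 1) hl i)
      have hq6 : Monotone q := by
        apply monotone_nat_of_le_succ
        intro i
        by_cases hi : i < n
        · exact (hq4 i).trans (hq3 i hi)
        · have hi' : ¬ (i + 1 < n) := by omega
          simp [hq, hi, hi']
      have hq7 : ∀ i, G l i ≤ q i := by
        intro i
        by_cases hi : i < n
        · simp only [hG, hq, hi, if_true]
          split_ifs with hc
          · have := (h1 i l hi hl' hc).2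
            omega
          · have := (h2 i l).2
            omega
        · simp [hG, hq, hi]
      -- first step
      have s1 := move_X hAB (hGmono l (by omega)) hq6 hq7 hq5 (hGn l) n 0 (by omega)
      have s1' := s1.left (R n (n + G l 0))
      rw [← List.append_assoc, R_append (show n ≤ n + G l 0 by omega)
        (show n + G l 0 ≤ n + q 0 by have := hq7 0; omega)] at s1'
      -- second step
      have s2 := row_X (q := q) (q' := G (l + 1)) (z := z) (by omega)
        (fun b hb hb' => hBC b z hb hb' (by omega) hzn) hAB hq5 (hGle (l + 1) hl) hqn hq1 hq2 hq3 hq4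
        n 0 (by omega)
      have s3 : Reach c (R n (n + q 0) ++ [z]) (z :: R n (n + q 0)) := by
        apply Reach.passLeft
        intro b hb
        rw [mem_R] at hb
        have := hq5 0
        exact ⟨by omega, hBC b z (by omega) (by omega) (by omega) hzn⟩
      have s2' := s2.left (R n (n + q 0))
      have s3' := s3.right (R (n + q 0) (n + G (l + 1) 0) ++ X n (G (l + 1)) 0 n)
      have s4 : Reach c ((R n (n + G l 0) ++ X n (G l) 0 n) ++ [z])
          (z :: (R n (n + G (l + 1) 0) ++ X n (G (l + 1)) 0 n)) := by
        refine Reach.trans (s1'.right [z]) ?_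
        refine Reach.trans (by simpa using s2') ?_
        have e2 : R n (n + G (l + 1) 0) = R n (n + q 0) ++ R (n + q 0) (n + G (l + 1) 0) := by
          rw [R_append (by omega)]
          have := hq4 0
          omega
        rw [e2]
        simpa using s3'
      have s5 := s4.ctx (R (n + m) (n + m + l)) (R (z + 1) (n + m + n))
      have e3 : n + m + (l + 1) = z + 1 := by omega
      rw [e3]
      simpa using s5
  have k1 := key n le_rfl
  refine Reach.trans k1 ?_
  have s1 := move_X (q' := fun _ => m) hAB (hGmono n le_rfl) monotone_const (hGle n le_rfl)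
    (fun _ => le_rfl) (hGn n) n 0 (by omega)
  rw [X_const n 0 (by omega)] at s1
  have s2 := s1.left (R n (n + G n 0))
  rw [← List.append_assoc, R_append (show n ≤ n + G n 0 by omega)
        (show n + G n 0 ≤ n + m by have := hGle n le_rfl 0; omega)] at s2
  have s3 := s2.ctx (R (n + m) (n + m + n)) []
  rw [R_self]
  simpa using s3

end Pool.PBL
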