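import Mathlib
import Pool.Agent.PBL.Cross
import Pool.Agent.PBL.Count

/-!
Blocked generalised configurations with rainbow segments; doubling and iterated doubling.
-/

set_option autoImplicit false

namespace Pool.PBL

open Relation

/-- A blocked generalised configuration with `n` points and colours in `Fin k`, whose index set is cut
by the monotone function `g` into at most `t` segments such that no segment contains two points of
the same colour. -/
def Sys (k t n : ℕ) : Prop :=
  ∃ (c : ℕ → Fin k) (g : ℕ → ℕ), Monotone g ∧ (∀ i, i < n → g i < t) ∧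
    (∀ i j, i < n → j < n → g i = g j → c i = c j → i = j) ∧
    Reach c (List.range n) (List.range n).reverse

theorem Sys.mono {k t T n : ℕ} (h : Sys k t n) (hT : t ≤ T) : Sys k T n := by
  obtain ⟨c, g, h1, h2, h3, h4⟩ := h
  exact ⟨c, g, h1, fun i hi => lt_of_lt_of_le (h2 i hi) hT, h3, h4⟩

theorem reach_range {κ : Type*} {c : ℕ → κ} : ∀ n, (∀ i j, i < n → j < n → c i = c j → i = j) →
    Reach c (List.range n) (List.range n).reverse
  | 0, _ => Reach.refl _
  | n + 1, h => by
    rw [List.range_succ, List.reverse_append, List.reverse_singleton]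
    have h1 : Reach c (List.range n ++ [n]) (n :: List.range n) := by
      apply Reach.passLeft
      intro b hb
      rw [List.mem_range] at hb
      refine ⟨hb, fun hc => ?_⟩
      have := h b n (by omega) (by omega) hc
      omega
    have h2 := (reach_range n (fun i j hi hj => h i j (by omega) (by omega))).cons n
    exact h1.trans h2

theorem Sys.start (k : ℕ) (hk : 0 < k) : Sys k 1 k := by
  have hc : ∀ i j, i < k → j < k → (⟨i % k, Nat.mod_lt _ hk⟩ : Fin k) = ⟨j % k, Nat.mod_lt _ hk⟩ →
      i = j := by
    intro i j hi hj h
    have := congrArg Fin.val h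
    simpa [Nat.mod_eq_of_lt hi, Nat.mod_eq_of_lt hj] using this
  exact ⟨fun i => ⟨i % k, Nat.mod_lt _ hk⟩, fun _ => 0, monotone_const, fun _ _ => Nat.one_pos,
    fun i j hi hj _ h => hc i j hi hj h, reach_range k hc⟩

theorem R_map (s n : ℕ) : (List.range n).map (s + ·) = R s (s + n) := by
  unfold R
  rw [show s + n - s = n by omega, List.range'_eq_map_range]

theorem reach_block {κ κ' : Type*} {c : ℕ → κ} {c' : ℕ → κ'} {n : ℕ} (s : ℕ)
    (hc : ∀ x y, x < n → y < n → (c' (s + x) = c' (s + y) ↔ c x = c y))
    (h : Reach c (List.range n) (List.range n).reverse) :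
    Reach c' (R s (s + n)) (R s (s + n)).reverse := by
  have := Reach.map (c' := c') (f := (s + ·)) (n := n) (fun a b hab => Nat.add_lt_add_left hab s) hc h
    (fun x hx => List.mem_range.mp hx)
  rw [List.map_reverse, R_map] at this
  exact this

/-- Doubling. -/
theorem Sys.double {k t n k' t' m L : ℕ} (h : Sys k t n) (h' : Sys k' t' m)
    (hL : 18 * k ≤ L ^ 2) (ht : t ^ 2 < 2 ^ L) (hm : 2 * t * L ≤ m) :
    Sys (k + k') (t + t' + t) (n + m + n) := by
  obtain ⟨c, g, hg, hgt, hc, hr⟩ := h
  obtain ⟨c', g', hg', hgt', hc', hr'⟩ := h'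
  have hk : 0 < k := lt_of_le_of_lt (Nat.zero_le _) (c 0).isLt
  obtain ⟨π, hπ⟩ := exists_good hk hL ht hgt hc
  set col : ℕ → Fin (k + k') := fun i => if i < n then Fin.castAdd k' (c i) else
    if i < n + m then Fin.natAdd k (c' (i - n)) else Fin.castAdd k' (π (c (i - (n + m)))) with hcol
  set G : ℕ → ℕ := fun i => if i < n then g i else if i < n + m then t + g' (i - n) else
    t + t' + g (i - (n + m)) with hG
  have colA : ∀ i, i < n → col i = Fin.castAdd k' (c i) := fun i hi => by simp [hcol, hi]
  have colB : ∀ i, n ≤ i → i < n + m → col i = Fin.natAdd k (c' (i - n)) := fun i hi hi' => by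
    simp only [hcol]
    rw [if_neg (by omega), if_pos hi']
  have colC : ∀ i, n + m ≤ i → col i = Fin.castAdd k' (π (c (i - (n + m)))) := fun i hi => by
    simp only [hcol]
    rw [if_neg (by omega), if_neg (by omega)]
  have GA : ∀ i, i < n → G i = g i := fun i hi => by simp [hG, hi]
  have GB : ∀ i, n ≤ i → i < n + m → G i = t + g' (i - n) := fun i hi hi' => by
    simp only [hG]
    rw [if_neg (by omega), if_pos hi']
  have GC : ∀ i, n + m ≤ i → G i = t + t' + g (i - (n + m)) := fun i hi => by
    simp only [hG]
    rw [if_neg (by omega), if_neg (by omega)]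
  have ne1 : ∀ (a : Fin k) (b : Fin k'), Fin.castAdd k' a ≠ Fin.natAdd k b := by
    intro a b hab
    have := congrArg Fin.val hab
    simp only [Fin.val_castAdd, Fin.val_natAdd] at this
    have := a.isLt
    omega
  have eqv : ∀ (a b : Fin k), Fin.castAdd k' a = Fin.castAdd k' b ↔ a = b := by
    intro a b
    constructor
    · intro hab
      have := congrArg Fin.val hab
      simp only [Fin.val_castAdd] at this
      exact Fin.ext this
    · rintro rfl; rfl
  have eqv' : ∀ (a b : Fin k'), Fin.natAdd k a = Fin.natAdd k b ↔ a = b := by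
    intro a b
    constructor
    · intro hab
      have := congrArg Fin.val hab
      simp only [Fin.val_natAdd] at this
      exact Fin.ext (by omega)
    · rintro rfl; rfl
  refine ⟨col, G, ?_, ?_, ?_, ?_⟩
  · -- monotone
    intro i j hij
    rcases Nat.lt_or_ge i n with hi | hi
    · rcases Nat.lt_or_ge j n with hj | hj
      · rw [GA i hi, GA j hj]; exact hg hij
      · have := hgt i hi
        rcases Nat.lt_or_ge j (n + m) with hj' | hj'
        · rw [GA i hi, GB j hj hj']; omega
        · rw [GA i hi, GC j hj']; omega
    · rcases Nat.lt_or_ge i (n + m) with hi' | hi'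
      · have := hgt' (i - n) (by omega)
        rcases Nat.lt_or_ge j (n + m) with hj' | hj'
        · rw [GB i hi hi', GB j (by omega) hj']
          have := hg' (show i - n ≤ j - n by omega)
          omega
        · rw [GB i hi hi', GC j hj']; omega
      · rw [GC i hi', GC j (by omega)]
        have := hg (show i - (n + m) ≤ j - (n + m) by omega)
        omega
  · intro i hi
    rcases Nat.lt_or_ge i n with h1 | h1
    · rw [GA i h1]; have := hgt i h1; omega
    · rcases Nat.lt_or_ge i (n + m) with h2 | h2
      · rw [GB i h1 h2]; have := hgt' (i - n) (by omega); omega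
      · rw [GC i h2]; have := hgt (i - (n + m)) (by omega); omega
  · intro i j hi hj hgij hcij
    rcases Nat.lt_or_ge i n with h1 | h1
    · rcases Nat.lt_or_ge j n with h3 | h3
      · rw [GA i h1, GA j h3] at hgij
        rw [colA i h1, colA j h3, eqv] at hcij
        exact hc i j h1 h3 hgij hcij
      · have e1 := hgt i h1
        rcases Nat.lt_or_ge j (n + m) with h4 | h4
        · rw [GA i h1, GB j h3 h4] at hgij; omega
        · rw [GA i h1, GC j h4] at hgij; omega
    · rcases Nat.lt_or_ge i (n + m) with h2 | h2
      · have e1 := hgt' (i - n) (by omega)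
        rcases Nat.lt_or_ge j n with h3 | h3
        · have e2 := hgt j h3
          rw [GB i h1 h2, GA j h3] at hgij; omega
        · rcases Nat.lt_or_ge j (n + m) with h4 | h4
          · rw [GB i h1 h2, GB j h3 h4] at hgij
            rw [colB i h1 h2, colB j h3 h4, eqv'] at hcij
            have := hc' (i - n) (j - n) (by omega) (by omega) (by omega) hcij
            omega
          · rw [GB i h1 h2, GC j h4] at hgij; omega
      · rcases Nat.lt_or_ge j n with h3 | h3
        · have e2 := hgt j h3
          rw [GC i h2, GA j h3] at hgij; omega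
        · rcases Nat.lt_or_ge j (n + m) with h4 | h4
          · have e2 := hgt' (j - n) (by omega)
            rw [GC i h2, GB j h3 h4] at hgij; omega
          · rw [GC i h2, GC j h4] at hgij
            rw [colC i h2, colC j h4, eqv] at hcij
            have := hc (i - (n + m)) (j - (n + m)) (by omega) (by omega) (by omega)
              (π.injective hcij)
            omega
  · have hcross := cross (c := col) (n := n) (m := m)
      (fun a b ha hb hb' => by
        rw [colA a ha, colB b hb hb']; exact ne1 _ _)
      (fun b z hb hb' hz _ => by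
        rw [colB b hb hb', colC z hz]; exact (ne1 _ _).symm)
      (F (fun a b => c a = π (c b))) (F_zero _)
      (fun i l hi hl hcc => by
        rw [colA i hi, colC (n + m + l) (by omega), eqv,
          show n + m + l - (n + m) = l by omega] at hcc
        exact F_succ_of (fun a b => c a = π (c b)) hcc)
      (fun i l => F_succ _ i l)
      (fun i l hi hl => by
        refine le_trans (F_le hg hgt hc ?_ hπ hi hl) hm
        intro a b ha hb hgab hcab
        exact hc a b ha hb hgab (π.injective hcab))
    have rA : Reach col (R 0 n) (R 0 n).reverse := by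
      have := reach_block (c' := col) 0 (c := c) (n := n) (fun x y hx hy => by
        rw [Nat.zero_add, Nat.zero_add, colA x hx, colA y hy, eqv]) hr
      rwa [Nat.zero_add] at this
    have rB : Reach col (R n (n + m)) (R n (n + m)).reverse :=
      reach_block (c' := col) n (c := c') (n := m) (fun x y hx hy => by
        rw [colB (n + x) (by omega) (by omega), colB (n + y) (by omega) (by omega), eqv',
          show n + x - n = x by omega, show n + y - n = y by omega]) hr'
    have rC : Reach col (R (n + m) (n + m + n)) (R (n + m) (n + m + n)).reverse :=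
      reach_block (c' := col) (n + m) (c := c) (n := n) (fun x y hx hy => by
        rw [colC (n + m + x) (by omega), colC (n + m + y) (by omega), eqv,
          show n + m + x - (n + m) = x by omega, show n + m + y - (n + m) = y by omega]
        exact π.injective.eq_iff) hr
    have e1 : List.range (n + m + n) = R 0 n ++ R n (n + m) ++ R (n + m) (n + m + n) := by
      rw [R_append (Nat.zero_le _) (by omega), R_append (Nat.zero_le _) (by omega), R_zero]
    rw [e1]
    refine Reach.trans hcross ?_
    refine Reach.trans ((rC.right (R n (n + m))).right (R 0 n)) ?_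
    refine Reach.trans ((rB.left (R (n + m) (n + m + n)).reverse).right (R 0 n)) ?_
    have h5 := rA.left ((R (n + m) (n + m + n)).reverse ++ (R n (n + m)).reverse)
    simpa using h5

/-- Iterated doubling. -/
theorem Sys.iterate {k t n k' t' m L M : ℕ} (h : Sys k t n) (h' : Sys k' t' m)
    (hL : 18 * (k + M * k') ≤ L ^ 2) (ht : (2 ^ M * (t + t')) ^ 2 < 2 ^ L)
    (hm : 2 * (2 ^ M * (t + t')) * L ≤ m) :
    ∀ j, j ≤ M → ∃ N T, 2 ^ j * n ≤ N ∧ T + t' = 2 ^ j * (t + t') ∧ Sys (k + j * k') T N
  | 0, _ => ⟨n, t, by simp, by simp, by simpa using h⟩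
  | j + 1, hj => by
    obtain ⟨N, T, h1, h2, h3⟩ := Sys.iterate h h' hL ht hm j (by omega)
    have hpow : 2 ^ j * (t + t') ≤ 2 ^ M * (t + t') :=
      Nat.mul_le_mul_right _ (Nat.pow_le_pow_right (by norm_num) (by omega))
    have hT : T ≤ 2 ^ M * (t + t') := by omega
    have hd := h3.double h' (L := L) ?_ ?_ ?_
    · refine ⟨N + m + N, T + t' + T, ?_, ?_, ?_⟩
      · rw [pow_succ]
        have : 2 ^ j * 2 * n = 2 ^ j * n + 2 ^ j * n := by ring
        omega
      · rw [pow_succ]
        have : 2 ^ j * 2 * (t + t') = 2 ^ j * (t + t') + 2 ^ j * (t + t') := by ring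
        omega
      · have e : k + (j + 1) * k' = k + j * k' + k' := by ring
        rw [e]
        exact hd
    · refine le_trans ?_ hL
      have : j * k' ≤ M * k' := Nat.mul_le_mul_right _ (by omega)
      omega
    · exact lt_of_le_of_lt (Nat.pow_le_pow_left hT 2) ht
    · refine le_trans ?_ hm
      gcongr

end Pool.PBL
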