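import Mathlib
import Pool.Agent.PBL.System

/-!
Superpolynomial growth of blocked generalised configurations.
-/

set_option autoImplicit false

namespace Pool.PBL

/-- systems at every scale `2 ^ s` with exponent `1 + a / 4` for the number of points and exponent
`a / 4` for the number of segments -/
def E (a : ℕ) : Prop :=
  ∃ C : ℕ, ∀ s : ℕ, ∃ k t n : ℕ, k ≤ 2 ^ s ∧ 2 ^ ((4 + a) * s) ≤ n ^ 4 * 2 ^ C ∧
    t ^ 4 ≤ 2 ^ (a * s + C) ∧ Sys k t n

theorem E_zero : E 0 := by
  refine ⟨0, fun s => ⟨2 ^ s, 1, 2 ^ s, le_rfl, ?_, by simp, Sys.start _ (by positivity)⟩⟩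
  rw [← pow_mul]
  simp [mul_comm]

theorem sq_le_two_pow : ∀ n, 4 ≤ n → n ^ 2 ≤ 2 ^ n := by
  intro n hn
  induction n, hn using Nat.le_induction with
  | base => norm_num
  | succ n hn ih =>
    rw [pow_succ 2 n]
    nlinarith

theorem E_succ {a : ℕ} (h : E a) : E (a + 1) := by
  obtain ⟨C, hC⟩ := h
  set s₀ : ℕ := 4 * (4 + a) ^ 2 + 4 * C + 4 * a + 100 with hs₀
  refine ⟨(1 + a) * s₀ + C + 7 + a, fun s => ?_⟩
  rcases Nat.lt_or_ge s s₀ with hs | hs
  · -- small scales
    refine ⟨2 ^ s, 1, 2 ^ s, le_rfl, ?_, ?_, Sys.start _ (by positivity)⟩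
    · rw [← pow_mul, ← pow_add]
      apply Nat.pow_le_pow_right (by norm_num)
      nlinarith
    · simpa using Nat.one_le_two_pow
  · set b : ℕ := 4 + a with hb
    set r : ℕ := s / (2 * b) with hr
    set M : ℕ := s / 4 with hM
    set e : ℕ := (s + 1) / 2 with he
    set L : ℕ := 5 * 2 ^ e with hLdef
    have hb4 : 4 ≤ b := by omega
    have hr1 : 2 * b * r ≤ s := Nat.mul_div_le s (2 * b)
    have hr2 : s < 2 * b * (r + 1) := Nat.lt_mul_div_succ s (by omega)
    have hbb : 4 * b * b ≤ s := by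
      have : 4 * b * b = 4 * (4 + a) ^ 2 := by rw [hb]; ring
      omega
    have hr3 : 2 * b ≤ r := by
      rw [hr, Nat.le_div_iff_mul_le (by omega)]
      nlinarith
    have hrs : r < s := by nlinarith
    have hs2 : s ≤ 2 ^ (r + 1) := by
      have h1 := sq_le_two_pow (r + 1) (by omega)
      nlinarith
    have hM4 : 4 * M ≤ s := Nat.mul_div_le s 4
    have hM4' : s ≤ 4 * M + 3 := by omega
    have he1 : 2 * e ≤ s + 1 := Nat.mul_div_le (s + 1) 2
    have he2 : s ≤ 2 * e := by omega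
    obtain ⟨k, t, n, hk, hn, ht, hsys⟩ := hC (s - 1)
    obtain ⟨k', t', m, hk', hm, ht', hsys'⟩ := hC (s - r)
    have ht1 : t ^ 4 ≤ 2 ^ (a * s + C) := by
      refine ht.trans (Nat.pow_le_pow_right (by norm_num) ?_)
      have : a * (s - 1) ≤ a * s := Nat.mul_le_mul_left _ (by omega)
      omega
    have ht1' : t' ^ 4 ≤ 2 ^ (a * s + C) := by
      refine ht'.trans (Nat.pow_le_pow_right (by norm_num) ?_)
      have : a * (s - r) ≤ a * s := Nat.mul_le_mul_left _ (by omega)
      omega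
    have htt : (t + t') ^ 4 ≤ 2 ^ (a * s + C + 4) := by
      have h16 : (2 : ℕ) ^ (a * s + C + 4) = 16 * 2 ^ (a * s + C) := by
        rw [pow_add]; ring
      rw [h16]
      rcases le_total t t' with h | h
      · calc (t + t') ^ 4 ≤ (2 * t') ^ 4 := Nat.pow_le_pow_left (by omega) 4
          _ = 16 * t' ^ 4 := by ring
          _ ≤ _ := Nat.mul_le_mul_left _ ht1'
      · calc (t + t') ^ 4 ≤ (2 * t) ^ 4 := Nat.pow_le_pow_left (by omega) 4
          _ = 16 * t ^ 4 := by ring
          _ ≤ _ := Nat.mul_le_mul_left _ ht1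
    have hT4 : (2 ^ M * (t + t')) ^ 4 ≤ 2 ^ ((a + 1) * s + C + 4) := by
      rw [mul_pow, ← pow_mul]
      calc 2 ^ (M * 4) * (t + t') ^ 4 ≤ 2 ^ s * 2 ^ (a * s + C + 4) :=
            Nat.mul_le_mul (Nat.pow_le_pow_right (by norm_num) (by omega)) htt
        _ = 2 ^ ((a + 1) * s + C + 4) := by rw [← pow_add]; ring_nf
    -- number of colours
    have hK : k + M * k' ≤ 2 ^ s := by
      have h1 : M * k' ≤ 2 ^ (s - 1) := by
        have h2 : M ≤ 2 ^ (r - 1) := by
          have h3 : 2 ^ (r + 1) = 4 * 2 ^ (r - 1) := by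
            rw [show r + 1 = (r - 1) + 2 by omega, pow_add]; ring
          omega
        calc M * k' ≤ 2 ^ (r - 1) * 2 ^ (s - r) := Nat.mul_le_mul h2 hk'
          _ = 2 ^ (s - 1) := by
            rw [← pow_add]
            congr 1
            omega
      have h4 : 2 ^ s = 2 ^ (s - 1) + 2 ^ (s - 1) := by
        rw [← two_mul, ← pow_succ']
        congr 1
        omega
      omega
    have hL2 : L ^ 2 = 25 * 2 ^ (2 * e) := by
      rw [hLdef, mul_pow, ← pow_mul, mul_comm e 2]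
      norm_num
    have cond1 : 18 * (k + M * k') ≤ L ^ 2 := by
      have h1 : 2 ^ s ≤ 2 ^ (2 * e) := Nat.pow_le_pow_right (by norm_num) he2
      omega
    have cond2 : (2 ^ M * (t + t')) ^ 2 < 2 ^ L := by
      have h1 : (2 ^ M * (t + t')) ^ 2 ≤ 2 ^ ((a + 1) * s + C + 4) := by
        refine le_trans ?_ hT4
        rcases Nat.eq_zero_or_pos (2 ^ M * (t + t')) with h0 | h0
        · rw [h0]; simp
        · exact Nat.pow_le_pow_right h0 (by norm_num)
      refine lt_of_le_of_lt h1 (Nat.pow_lt_pow_right (by norm_num) ?_)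
      have h2 := sq_le_two_pow e (by omega)
      have h3 : a + 1 + C + 4 ≤ e := by omega
      have h4 : (a + 1) * s ≤ (a + 1) * (2 * e) := Nat.mul_le_mul_left _ he2
      have h5 : (a + 1) * (2 * e) + C + 4 < 5 * e ^ 2 := by nlinarith
      omega
    have cond3 : 2 * (2 ^ M * (t + t')) * L ≤ m := by
      have h1 : (2 * (2 ^ M * (t + t')) * L) ^ 4 * 2 ^ C ≤ m ^ 4 * 2 ^ C := by
        refine le_trans ?_ hm
        calc (2 * (2 ^ M * (t + t')) * L) ^ 4 * 2 ^ C
            = 16 * (2 ^ M * (t + t')) ^ 4 * (625 * 2 ^ (4 * e)) * 2 ^ C := by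
              rw [hLdef]
              rw [show (2 : ℕ) ^ (4 * e) = (2 ^ e) ^ 4 by rw [← pow_mul, mul_comm]]
              ring
          _ ≤ 2 ^ 4 * 2 ^ ((a + 1) * s + C + 4) * (2 ^ 10 * 2 ^ (2 * s + 2)) * 2 ^ C := by
              gcongr <;> omega
          _ = 2 ^ ((a + 3) * s + 2 * C + 20) := by
              rw [← pow_add, ← pow_add, ← pow_add, ← pow_add]
              congr 1
              ring
          _ ≤ 2 ^ (b * (s - r)) := by
              apply Nat.pow_le_pow_right (by norm_num)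
              have h2 : b * (s - r) + b * r = b * s := by
                rw [← mul_add]
                congr 1
                omega
              have h3 : b * s = (a + 3) * s + s := by rw [hb]; ring
              have h4 : 2 * (b * r) ≤ s := by rw [← mul_assoc]; exact hr1
              omega
      have h2 : (2 * (2 ^ M * (t + t')) * L) ^ 4 ≤ m ^ 4 :=
        Nat.le_of_mul_le_mul_right h1 (by positivity)
      exact (Nat.pow_le_pow_iff_left (by norm_num)).mp h2
    obtain ⟨N, T, hN, hT, hS⟩ := Sys.iterate hsys hsys' cond1 cond2 cond3 M le_rfl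
    refine ⟨k + M * k', T, N, hK, ?_, ?_, hS⟩
    · calc 2 ^ ((4 + (a + 1)) * s)
          ≤ 2 ^ (4 * M + b * (s - 1) + ((1 + a) * s₀ + 7 + a)) := by
            apply Nat.pow_le_pow_right (by norm_num)
            have h2 : b * (s - 1) + b = b * s := by
              obtain ⟨s', hs'⟩ : ∃ s', s = s' + 1 := ⟨s - 1, by omega⟩
              rw [hs', Nat.add_sub_cancel]
              ring
            have h3 : (4 + (a + 1)) * s = b * s + s := by rw [hb]; ring
            omega
        _ = (2 ^ M) ^ 4 * 2 ^ (b * (s - 1)) * 2 ^ ((1 + a) * s₀ + 7 + a) := by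
            rw [pow_add, pow_add, mul_comm 4 M, pow_mul]
        _ ≤ (2 ^ M) ^ 4 * (n ^ 4 * 2 ^ C) * 2 ^ ((1 + a) * s₀ + 7 + a) := by gcongr
        _ = (2 ^ M * n) ^ 4 * 2 ^ ((1 + a) * s₀ + C + 7 + a) := by
            rw [show (1 + a) * s₀ + C + 7 + a = C + ((1 + a) * s₀ + 7 + a) by ring, pow_add 2 C]
            ring
        _ ≤ N ^ 4 * 2 ^ ((1 + a) * s₀ + C + 7 + a) := by gcongr
    · calc T ^ 4 ≤ (2 ^ M * (t + t')) ^ 4 := Nat.pow_le_pow_left (by omega) 4
        _ ≤ 2 ^ ((a + 1) * s + C + 4) := hT4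
        _ ≤ _ := by
            apply Nat.pow_le_pow_right (by norm_num)
            omega

theorem E_all : ∀ a, E a
  | 0 => E_zero
  | a + 1 => E_succ (E_all a)

theorem GenBlocked.mono {k K n : ℕ} (h : GenBlocked k n) (hK : k ≤ K) : GenBlocked K n := by
  obtain ⟨c, hc⟩ := h
  refine ⟨fun i => Fin.castLE hK (c i), ?_⟩
  have := Reach.map (c' := fun i => Fin.castLE hK (c i)) (f := id) (n := n) (c := c) strictMono_id
    (fun x y _ _ => by simp) hc (fun x hx => List.mem_range.mp hx)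
  simpa using this

theorem superpoly (A : ℕ) : ∃ D : ℕ, ∀ K : ℕ, 0 < K → ∃ n, K ^ A ≤ D * n ∧ GenBlocked K n := by
  obtain ⟨C, hC⟩ := E_all (4 * A)
  refine ⟨2 ^ (A + C), fun K hK => ?_⟩
  set s := Nat.log 2 K with hs
  have h1 : 2 ^ s ≤ K := Nat.pow_log_le_self 2 hK.ne'
  have h2 : K < 2 ^ (s + 1) := Nat.lt_pow_succ_log_self (by norm_num) K
  obtain ⟨k, t, n, hk, hn, -, c, g, -, -, -, hr⟩ := hC s
  refine ⟨n, ?_, (GenBlocked.mono ⟨c, hr⟩ (hk.trans h1))⟩
  have h3 : (K ^ A) ^ 4 ≤ (2 ^ (A + C) * n) ^ 4 := by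
    calc (K ^ A) ^ 4 ≤ ((2 ^ (s + 1)) ^ A) ^ 4 := by gcongr
      _ = 2 ^ (4 * A * s + 4 * A) := by
          rw [← pow_mul, ← pow_mul]
          congr 1
          ring
      _ ≤ 2 ^ ((4 + 4 * A) * s + (4 * A + 3 * C)) := by
          apply Nat.pow_le_pow_right (by norm_num)
          nlinarith
      _ = 2 ^ ((4 + 4 * A) * s) * 2 ^ (4 * A + 3 * C) := by rw [pow_add]
      _ ≤ n ^ 4 * 2 ^ C * 2 ^ (4 * A + 3 * C) := by gcongr
      _ = (2 ^ (A + C) * n) ^ 4 := by
          rw [mul_pow, ← pow_mul, mul_assoc, ← pow_add, mul_comm]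
          congr 2
          ring
  exact (Nat.pow_le_pow_iff_left (by norm_num)).mp h3

end Pool.PBL
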