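import Mathlib
import Pool.Agent.PBL.Asym

/-!
Blocked point sets of the plane give blocked generalised configurations (sweep by slopes).
-/

set_option autoImplicit false

namespace Pool.PBL

open Relation

section Sweep

variable {κ : Type*} {c : ℕ → κ} {n : ℕ} {x y : ℕ → ℝ}

/-- the coordinate in the direction of slope `σ` -/
def f (x y : ℕ → ℝ) (σ : ℝ) (i : ℕ) : ℝ := y i - σ * x i

/-- order just before the slope `σ` -/
def Bf (x y : ℕ → ℝ) (σ : ℝ) (a b : ℕ) : Prop :=
  f x y σ a < f x y σ b ∨ (f x y σ a = f x y σ b ∧ a < b)

/-- order just after the slope `σ` -/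
def Af (x y : ℕ → ℝ) (σ : ℝ) (a b : ℕ) : Prop :=
  f x y σ a < f x y σ b ∨ (f x y σ a = f x y σ b ∧ b < a)

/-- the blocking hypothesis in coordinates -/
def Hyp (c : ℕ → κ) (n : ℕ) (x y : ℕ → ℝ) : Prop :=
  ∀ i j, i < j → j < n → (c i = c j ↔ ∃ r, i < r ∧ r < j ∧
    (y r - y i) * (x j - x i) = (y j - y i) * (x r - x i))

theorem collinear_iff (hx : ∀ i j, i < j → j < n → x i < x j) {σ : ℝ} {i j r : ℕ}
    (hij : i < j) (hj : j < n) (h : f x y σ i = f x y σ j) :
    (y r - y i) * (x j - x i) = (y j - y i) * (x r - x i) ↔ f x y σ r = f x y σ i := by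
  have h1 : y j - y i = σ * (x j - x i) := by
    simp only [f] at h
    linarith
  have h2 : x j - x i ≠ 0 := by
    have := hx i j hij hj
    linarith
  rw [h1]
  simp only [f]
  constructor
  · intro h3
    have h4 : (y r - y i) * (x j - x i) = (σ * (x r - x i)) * (x j - x i) := by
      rw [h3]; ring
    have h5 := mul_right_cancel₀ h2 h4
    linarith
  · intro h3
    have h4 : y r - y i = σ * (x r - x i) := by linarith
    rw [h4]; ring

theorem group_step (hx : ∀ i j, i < j → j < n → x i < x j) (hH : Hyp c n x y) (σ : ℝ) :
    ∀ (N : ℕ) (w : List ℕ), w.length ≤ N → w.Pairwise (Bf x y σ) → (∀ i ∈ w, i < n) →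
      (∀ i, i < n → ∀ z ∈ w, f x y σ i = f x y σ z → i ∈ w) →
      ∃ w', Reach c w w' ∧ w'.Pairwise (Af x y σ) := by
  classical
  intro N
  induction N with
  | zero =>
    intro w hw _ _ _
    have : w = [] := List.length_eq_zero_iff.mp (by omega)
    subst this
    exact ⟨[], Reach.refl _, List.Pairwise.nil⟩
  | succ N ih =>
    intro w hw hp hlt hcl
    rcases w with _ | ⟨a, rest⟩
    · exact ⟨[], Reach.refl _, List.Pairwise.nil⟩
    set p : ℕ → Bool := fun z => decide (f x y σ z = f x y σ a) with hpdef
    set g : List ℕ := a :: rest.takeWhile p with hg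
    set rem : List ℕ := rest.dropWhile p with hrem
    have hsplit : g ++ rem = a :: rest := by
      rw [hg, hrem, List.cons_append, List.takeWhile_append_dropWhile]
    have hgf : ∀ z ∈ g, f x y σ z = f x y σ a := by
      intro z hz
      rw [hg, List.mem_cons] at hz
      rcases hz with rfl | hz
      · rfl
      · have := List.mem_takeWhile_imp hz
        simpa [hpdef] using this
    have hp' : (g ++ rem).Pairwise (Bf x y σ) := by rw [hsplit]; exact hp
    rw [List.pairwise_append] at hp'
    obtain ⟨hpg, hpr, hpgr⟩ := hp'
    have hremf : ∀ z ∈ rem, f x y σ a < f x y σ z := by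
      intro z hz
      rcases hr : rem with _ | ⟨b, rem'⟩
      · rw [hr] at hz; simp at hz
      · have hb : f x y σ b ≠ f x y σ a := by
          have hne : rest.dropWhile p ≠ [] := by rw [← hrem, hr]; simp
          have h1 := List.head_dropWhile_not p hne
          have h2 : (rest.dropWhile p).head hne = b := by
            have : (rest.dropWhile p) = b :: rem' := by rw [← hrem, hr]
            simp [this]
          rw [h2] at h1
          simpa [hpdef] using h1
        have hab : Bf x y σ a b := hpgr a (by simp [hg]) b (by rw [hr]; simp)
        have hab' : f x y σ a < f x y σ b := by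
          rcases hab with h | h
          · exact h
          · exact absurd h.1.symm hb
        rw [hr, List.mem_cons] at hz
        rcases hz with rfl | hz
        · exact hab'
        · rw [hr, List.pairwise_cons] at hpr
          rcases hpr.1 z hz with h | h
          · linarith
          · linarith [h.1]
    have hgn : ∀ z ∈ g, z < n := fun z hz => hlt z (by rw [← hsplit]; exact List.mem_append_left _ hz)
    have hrn : ∀ z ∈ rem, z < n := fun z hz => hlt z (by rw [← hsplit]; exact List.mem_append_right _ hz)
    have hgcl : ∀ r, r < n → f x y σ r = f x y σ a → r ∈ g := by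
      intro r hr hfr
      have h1 := hcl r hr a (by simp) hfr
      rw [← hsplit, List.mem_append] at h1
      rcases h1 with h1 | h1
      · exact h1
      · have := hremf r h1
        linarith
    have hgs : g.Pairwise (· < ·) := by
      refine hpg.imp_of_mem ?_
      intro s t hs ht hst
      rcases hst with h | h
      · rw [hgf s hs, hgf t ht] at h
        exact absurd h (lt_irrefl _)
      · exact h.2
    have hgi : ∀ (i j : ℕ) (hi : i < g.length) (hj : j < g.length), i < j → g[i] < g[j] :=
      fun i j hi hj hij => List.pairwise_iff_getElem.mp hgs i j hi hj hij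
    -- the reversal of the group
    have hstep : Reach c (g ++ rem) (g.reverse ++ rem) := by
      rcases Nat.lt_or_ge g.length 2 with h2 | h2
      · have : g.reverse = g := by
          have h3 : g.length = 1 := by
            have : 0 < g.length := by simp [hg]
            omega
          obtain ⟨z, hz⟩ := List.length_eq_one_iff.mp h3
          rw [hz]; rfl
        rw [this]
        exact Reach.refl _
      · apply ReflTransGen.single
        refine ⟨[], g, rem, by simp, by simp, h2, hgs, ?_⟩
        intro i j hi hj hij
        have m1 : g[i] ∈ g := List.getElem_mem hi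
        have m2 : g[j] ∈ g := List.getElem_mem hj
        have hlt' := hgi i j hi hj hij
        rw [hH _ _ hlt' (hgn _ m2)]
        constructor
        · rintro ⟨r, hr1, hr2, hr3⟩
          rw [collinear_iff hx hlt' (hgn _ m2) (by rw [hgf _ m1, hgf _ m2]), hgf _ m1] at hr3
          have hrg : r ∈ g := hgcl r (by have := hgn _ m2; omega) hr3
          obtain ⟨q, hq, hqr⟩ := List.mem_iff_getElem.mp hrg
          have hiq : i < q := by
            rcases Nat.lt_trichotomy i q with h | h | h
            · exact h
            · subst h; rw [hqr] at hr1; exact absurd hr1 (lt_irrefl _)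
            · have := hgi q i hq hi h
              rw [hqr] at this
              omega
          have hqj : q < j := by
            rcases Nat.lt_trichotomy q j with h | h | h
            · exact h
            · subst h; rw [hqr] at hr2; exact absurd hr2 (lt_irrefl _)
            · have := hgi j q hj hq h
              rw [hqr] at this
              omega
          omega
        · intro hij'
          have hq : i + 1 < g.length := by omega
          refine ⟨g[i + 1], hgi i (i + 1) hi hq (by omega), hgi (i + 1) j hq hj hij', ?_⟩
          rw [collinear_iff hx hlt' (hgn _ m2) (by rw [hgf _ m1, hgf _ m2]), hgf _ m1]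
          exact hgf _ (List.getElem_mem hq)
    -- recursion
    obtain ⟨rem', hr1, hr2⟩ := ih rem (by
        have h1 : g.length + rem.length = rest.length + 1 := by
          rw [← List.length_append, hsplit]; simp
        have h2 : 0 < g.length := by simp [hg]
        simp only [List.length_cons] at hw
        omega) hpr hrn (by
        intro i hi z hz hfi
        have h1 := hcl i hi z (by rw [← hsplit]; exact List.mem_append_right _ hz) hfi
        rw [← hsplit, List.mem_append] at h1
        rcases h1 with h1 | h1
        · have e1 := hgf i h1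
          have e2 := hremf z hz
          linarith
        · exact h1)
    refine ⟨g.reverse ++ rem', ?_, ?_⟩
    · rw [← hsplit]
      exact hstep.trans (hr1.left _)
    · rw [List.pairwise_append]
      refine ⟨?_, hr2, ?_⟩
      · rw [List.pairwise_reverse]
        refine hgs.imp_of_mem ?_
        intro s t hs ht hst
        right
        exact ⟨by rw [hgf s hs, hgf t ht], hst⟩
      · intro s hs t ht
        left
        have hs' : s ∈ g := List.mem_reverse.mp hs
        have ht' : t ∈ rem := (hr1.perm.mem_iff).mpr ht
        rw [hgf s hs']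
        exact hremf t ht'

/-- critical slope of a pair -/
noncomputable def slope' (x y : ℕ → ℝ) (i j : ℕ) : ℝ := (y j - y i) / (x j - x i)

theorem f_lt_iff (hx : ∀ i j, i < j → j < n → x i < x j) {σ : ℝ} {i j : ℕ} (hij : i < j)
    (hj : j < n) : f x y σ i < f x y σ j ↔ σ < slope' x y i j := by
  have h := hx i j hij hj
  unfold f slope'
  rw [lt_div_iff₀ (by linarith)]
  constructor <;> intro h1 <;> nlinarith

theorem f_gt_iff (hx : ∀ i j, i < j → j < n → x i < x j) {σ : ℝ} {i j : ℕ} (hij : i < j)
    (hj : j < n) : f x y σ j < f x y σ i ↔ slope' x y i j < σ := by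
  have h := hx i j hij hj
  unfold f slope'
  rw [div_lt_iff₀ (by linarith)]
  constructor <;> intro h1 <;> nlinarith

theorem next_slope (hx : ∀ i j, i < j → j < n → x i < x j) {σ σ' : ℝ} (hσ : σ < σ')
    (hno : ∀ i j, i < j → j < n → σ < slope' x y i j → σ' ≤ slope' x y i j)
    {w : List ℕ} (hw : ∀ i ∈ w, i < n) (h : w.Pairwise (Af x y σ)) :
    w.Pairwise (Bf x y σ') := by
  refine h.imp_of_mem ?_
  intro a b ha hb hab
  rcases Nat.lt_trichotomy a b with hlt | heq | hgt
  · -- a < b
    have h1 : f x y σ a < f x y σ b := by
      rcases hab with h | h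
      · exact h
      · omega
    have h2 := hno a b hlt (hw b hb) ((f_lt_iff hx hlt (hw b hb)).mp h1)
    rcases lt_or_eq_of_le h2 with h3 | h3
    · left
      exact (f_lt_iff hx hlt (hw b hb)).mpr h3
    · right
      refine ⟨?_, hlt⟩
      have h4 : ¬ f x y σ' a < f x y σ' b := by
        rw [f_lt_iff hx hlt (hw b hb), h3]; exact lt_irrefl _
      have h5 : ¬ f x y σ' b < f x y σ' a := by
        rw [f_gt_iff hx hlt (hw b hb), h3]; exact lt_irrefl _
      exact le_antisymm (not_lt.mp h5) (not_lt.mp h4)
  · subst heq
    rcases hab with h | h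
    · exact absurd h (lt_irrefl _)
    · exact absurd h.2 (lt_irrefl _)
  · -- b < a
    left
    rw [f_gt_iff hx hgt (hw a ha)]
    have h1 : ¬ (σ < slope' x y b a) := by
      rw [← f_lt_iff hx hgt (hw a ha)]
      rcases hab with h | h
      · exact not_lt.mpr h.le
      · rw [h.1]; exact lt_irrefl _
    exact lt_of_le_of_lt (not_lt.mp h1) hσ

/-- the critical slopes -/
noncomputable def crit (n : ℕ) (x y : ℕ → ℝ) : Finset ℝ :=
  ((Finset.range n ×ˢ Finset.range n).filter (fun ij => ij.1 < ij.2)).image
    (fun ij => slope' x y ij.1 ij.2)

theorem mem_crit {i j : ℕ} (hij : i < j) (hj : j < n) : slope' x y i j ∈ crit n x y := by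
  unfold crit
  rw [Finset.mem_image]
  exact ⟨(i, j), by simp; omega, rfl⟩

theorem sweep_aux (hx : ∀ i j, i < j → j < n → x i < x j) (hH : Hyp c n x y) :
    ∀ (N : ℕ) (σ : ℝ) (w : List ℕ), ((crit n x y).filter (fun s => σ < s)).card ≤ N →
      (List.range n).Perm w → w.Pairwise (Bf x y σ) → Reach c w (List.range n).reverse := by
  classical
  intro N
  induction N with
  | zero =>
    intro σ w hN hperm hw
    have hmem : ∀ i ∈ w, i < n := fun i hi => List.mem_range.mp ((hperm.mem_iff).mpr hi)
    obtain ⟨w', h1, h2⟩ := group_step hx hH σ w.length w le_rfl hw hmem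
      (fun i hi z _ _ => (hperm.mem_iff).mp (List.mem_range.mpr hi))
    have hempty : (crit n x y).filter (fun s => σ < s) = ∅ := Finset.card_eq_zero.mp (by omega)
    have hperm' : (List.range n).Perm w' := hperm.trans h1.perm
    have hmem' : ∀ i ∈ w', i < n := fun i hi => List.mem_range.mp ((hperm'.mem_iff).mpr hi)
    have h3 : w'.Pairwise (· > ·) := by
      refine h2.imp_of_mem ?_
      intro a b ha hb hab
      rcases Nat.lt_trichotomy a b with hlt | heq | hgt
      · exfalso
        have h4 : ¬ σ < slope' x y a b := by
          intro h5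
          have : slope' x y a b ∈ (crit n x y).filter (fun s => σ < s) :=
            Finset.mem_filter.mpr ⟨mem_crit hlt (hmem' b hb), h5⟩
          rw [hempty] at this
          simp at this
        rw [← f_lt_iff hx hlt (hmem' b hb)] at h4
        rcases hab with h | h
        · exact h4 h
        · omega
      · exfalso
        subst heq
        rcases hab with h | h
        · exact lt_irrefl _ h
        · exact lt_irrefl _ h.2
      · exact hgt
    have h4 : (List.range n).reverse.Pairwise (· > ·) := by
      rw [List.pairwise_reverse]
      exact List.pairwise_lt_range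
    have h5 : w' = (List.range n).reverse := by
      refine List.Perm.eq_of_pairwise ?_ h3 h4 (hperm'.symm.trans (List.reverse_perm _).symm)
      intro a b _ _ h h'
      exact absurd h (not_lt.mpr h'.le)
    rw [← h5]
    exact h1
  | succ N ih =>
    intro σ w hN hperm hw
    rcases Finset.eq_empty_or_nonempty ((crit n x y).filter (fun s => σ < s)) with he | hne
    · -- reduce to the empty case using the induction hypothesis
      exact ih σ w (by rw [he]; simp) hperm hw
    · have hmem : ∀ i ∈ w, i < n := fun i hi => List.mem_range.mp ((hperm.mem_iff).mpr hi)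
      obtain ⟨w', h1, h2⟩ := group_step hx hH σ w.length w le_rfl hw hmem
        (fun i hi z _ _ => (hperm.mem_iff).mp (List.mem_range.mpr hi))
      have hperm' : (List.range n).Perm w' := hperm.trans h1.perm
      have hmem' : ∀ i ∈ w', i < n := fun i hi => List.mem_range.mp ((hperm'.mem_iff).mpr hi)
      set σ' := ((crit n x y).filter (fun s => σ < s)).min' hne with hσ'
      have hσ'mem : σ' ∈ (crit n x y).filter (fun s => σ < s) := Finset.min'_mem _ hne
      have hlt : σ < σ' := (Finset.mem_filter.mp hσ'mem).2
      have h3 := next_slope hx hlt (fun i j hij hj hs =>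
        Finset.min'_le _ _ (Finset.mem_filter.mpr ⟨mem_crit hij hj, hs⟩)) hmem' h2
      refine h1.trans (ih σ' w' ?_ hperm' h3)
      have h4 : (crit n x y).filter (fun s => σ' < s) ⊂ (crit n x y).filter (fun s => σ < s) := by
        rw [Finset.ssubset_iff_of_subset]
        · exact ⟨σ', hσ'mem, by simp⟩
        · intro s hs
          rw [Finset.mem_filter] at hs ⊢
          exact ⟨hs.1, hlt.trans hs.2⟩
      have := Finset.card_lt_card h4
      omega

theorem sweep (hx : ∀ i j, i < j → j < n → x i < x j) (hH : Hyp c n x y) :
    Reach c (List.range n) (List.range n).reverse := by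
  classical
  obtain ⟨σ, hσ⟩ : ∃ σ : ℝ, ∀ s ∈ crit n x y, σ < s := by
    rcases Finset.eq_empty_or_nonempty (crit n x y) with h | h
    · exact ⟨0, by rw [h]; simp⟩
    · refine ⟨(crit n x y).min' h - 1, fun s hs => ?_⟩
      have := Finset.min'_le _ s hs
      linarith
  refine sweep_aux hx hH _ σ (List.range n) le_rfl (List.Perm.refl _) ?_
  refine List.pairwise_lt_range.imp_of_mem ?_
  intro a b _ hb hab
  left
  rw [f_lt_iff hx hab (List.mem_range.mp hb)]
  exact hσ _ (mem_crit hab (List.mem_range.mp hb))

end Sweep

end Pool.PBL
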