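import Mathlib
import Pool.Agent.PBL.Geom

/-!
Every blocked point set of the plane gives a blocked generalised configuration.
-/

set_option autoImplicit false

namespace Pool.PBL

theorem exists_shear (P : Finset (ℝ × ℝ)) :
    ∃ τ : ℝ, ∀ p ∈ P, ∀ q ∈ P, p.1 + τ * p.2 = q.1 + τ * q.2 → p = q := by
  classical
  let bad : Finset ℝ := (P ×ˢ P).image (fun pq => -(pq.1.1 - pq.2.1) / (pq.1.2 - pq.2.2))
  obtain ⟨τ, hτ⟩ := Infinite.exists_notMem_finset bad
  refine ⟨τ, fun p hp q hq h => ?_⟩
  by_cases h2 : p.2 = q.2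
  · rw [h2] at h
    exact Prod.ext (by linarith) h2
  · exfalso
    apply hτ
    simp only [bad, Finset.mem_image, Finset.mem_product]
    refine ⟨(p, q), ⟨hp, hq⟩, ?_⟩
    have h3 : p.2 - q.2 ≠ 0 := sub_ne_zero.mpr h2
    field_simp
    linarith

theorem genBlocked_of_plane {k : ℕ} (P : Finset (ℝ × ℝ)) (c : ℝ × ℝ → Fin k)
    (hB : ∀ v ∈ P, ∀ w ∈ P, v ≠ w → (c v = c w ↔ ∃ x ∈ P, x ∈ openSegment ℝ v w)) :
    GenBlocked k P.card := by
  classical
  obtain ⟨τ, hτ⟩ := exists_shear P
  let m : ℝ × ℝ → ℝ := fun p => p.1 + τ * p.2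
  set n := P.card with hn
  have hcard : (P.image m).card = n := Finset.card_image_of_injOn (fun p hp q hq h => hτ p hp q hq h)
  let emb := (P.image m).orderEmbOfFin hcard
  have hex : ∀ i : Fin n, ∃ p ∈ P, m p = emb i := by
    intro i
    have h1 : emb i ∈ P.image m := Finset.orderEmbOfFin_mem _ hcard i
    obtain ⟨p, hp, h⟩ := Finset.mem_image.mp h1
    exact ⟨p, hp, h⟩
  choose sel hsel hselm using hex
  let pt : ℕ → ℝ × ℝ := fun i => if h : i < n then sel ⟨i, h⟩ else 0
  have hpt : ∀ i (h : i < n), pt i = sel ⟨i, h⟩ := fun i h => by simp only [pt, dif_pos h]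
  have hptP : ∀ i, i < n → pt i ∈ P := fun i h => by rw [hpt i h]; exact hsel _
  have hptm : ∀ i (h : i < n), m (pt i) = emb ⟨i, h⟩ := fun i h => by rw [hpt i h]; exact hselm _
  have hx : ∀ i j, i < j → j < n → m (pt i) < m (pt j) := by
    intro i j hij hj
    rw [hptm i (hij.trans hj), hptm j hj]
    exact emb.strictMono (by exact hij)
  have hsurj : ∀ p ∈ P, ∃ r, r < n ∧ pt r = p := by
    intro p hp
    have h1 : m p ∈ P.image m := Finset.mem_image_of_mem m hp
    have h2 : m p ∈ Set.range emb := by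
      rw [Finset.range_orderEmbOfFin]
      exact h1
    obtain ⟨r, hr⟩ := h2
    refine ⟨r, r.isLt, ?_⟩
    apply hτ _ (hptP r r.isLt) _ hp
    have h3 := hptm r r.isLt
    show m (pt r) = m p
    rw [h3, ← hr]
  refine ⟨fun i => c (pt i), sweep (x := fun i => m (pt i)) (y := fun i => (pt i).2) hx ?_⟩
  intro i j hij hj
  have hi : i < n := hij.trans hj
  have hxij := hx i j hij hj
  have hne : pt i ≠ pt j := by
    intro h
    rw [h] at hxij
    exact lt_irrefl _ hxij
  show c (pt i) = c (pt j) ↔ _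
  rw [hB _ (hptP i hi) _ (hptP j hj) hne]
  constructor
  · rintro ⟨z, hz, a, b, ha, hb, hab, hzeq⟩
    obtain ⟨r, hr, rfl⟩ := hsurj z hz
    have h1 : (pt r).1 = a * (pt i).1 + b * (pt j).1 := by
      rw [← hzeq]; simp
    have h2 : (pt r).2 = a * (pt i).2 + b * (pt j).2 := by
      rw [← hzeq]; simp
    have ha' : a = 1 - b := by linarith
    have h3 : m (pt r) = m (pt i) + b * (m (pt j) - m (pt i)) := by
      simp only [m]
      rw [h1, h2, ha']
      ring
    have h4 : m (pt i) < m (pt r) := by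
      rw [h3]
      have : 0 < b * (m (pt j) - m (pt i)) := mul_pos hb (by linarith)
      linarith
    have h5 : m (pt r) < m (pt j) := by
      rw [h3]
      have : 0 < a * (m (pt j) - m (pt i)) := mul_pos ha (by linarith)
      rw [ha'] at this
      nlinarith
    refine ⟨r, ?_, ?_, ?_⟩
    · rcases Nat.lt_trichotomy i r with h | h | h
      · exact h
      · subst h; exact absurd h4 (lt_irrefl _)
      · exact absurd (hx r i h hi) (not_lt.mpr h4.le)
    · rcases Nat.lt_trichotomy r j with h | h | h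
      · exact h
      · subst h; exact absurd h5 (lt_irrefl _)
      · exact absurd (hx j r h hr) (not_lt.mpr h5.le)
    · simp only
      rw [h3, h2, ha']
      ring
  · rintro ⟨r, hir, hrj, hcol⟩
    have hr : r < n := hrj.trans hj
    have h1 := hx i r hir hr
    have h2 := hx r j hrj hj
    simp only at hcol
    set t : ℝ := (m (pt r) - m (pt i)) / (m (pt j) - m (pt i)) with ht
    have hd : 0 < m (pt j) - m (pt i) := by linarith
    have ht0 : 0 < t := div_pos (by linarith) hd
    have ht1 : t < 1 := by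
      rw [ht, div_lt_one hd]
      linarith
    have e1 : m (pt r) - m (pt i) = t * (m (pt j) - m (pt i)) := by
      rw [ht]; field_simp
    have e2 : (pt r).2 - (pt i).2 = t * ((pt j).2 - (pt i).2) := by
      have : ((pt r).2 - (pt i).2) * (m (pt j) - m (pt i)) =
          (t * ((pt j).2 - (pt i).2)) * (m (pt j) - m (pt i)) := by
        rw [hcol, e1]; ring
      exact mul_right_cancel₀ hd.ne' this
    refine ⟨pt r, hptP r hr, 1 - t, t, by linarith, ht0, by ring, ?_⟩
    have e3 : (pt r).1 - (pt i).1 = t * ((pt j).1 - (pt i).1) := by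
      simp only [m] at e1
      linear_combination e1 - τ * e2
    apply Prod.ext
    · simp only [Prod.fst_add, Prod.smul_fst, smul_eq_mul]
      linarith
    · simp only [Prod.snd_add, Prod.smul_snd, smul_eq_mul]
      linarith

end Pool.PBL
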